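import Pool.Agent.Lib.MP_9c5702_nt.QB.Defs
import Pool.Agent.Lib.MP_9c5702_nt.Q4.QCovP

/-! Affine classes modulo a prime, projective classes modulo `3 q`. -/

set_option autoImplicit false

namespace Pool.Agent.Lib.MP_9c5702_nt.QB

open Pool.Agent.Lib.MP_9c5702_nt.Q4

lemma scov_count {K : Type} [Field K] [Fintype K] [DecidableEq K] (n : K) :
    (Finset.univ.filter (fun x : Fin 3 → K => x 0 ^ 3 + x 1 ^ 3 + x 2 ^ 3 = n)).card
      ≤ 3 * Fintype.card K ^ 2 := by
  have h : (Finset.univ.filter (fun x : Fin 3 → K => x 0 ^ 3 + x 1 ^ 3 + x 2 ^ 3 = n)).card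
      ≤ 3 * (Finset.univ : Finset (K × K)).card := by
    refine Finset.card_le_mul_card_image_of_maps_to
      (f := fun x : Fin 3 → K => (x 0, x 1)) (fun _ _ => Finset.mem_univ _) 3 ?_
    intro y _
    have hr := Polynomial.card_nthRoots 3 (n - y.1 ^ 3 - y.2 ^ 3)
    refine le_trans ?_ (le_trans (Multiset.toFinset_card_le _) hr)
    refine Finset.card_le_card_of_injOn (fun x => x 2) ?_ ?_
    · intro p hp
      have hp' := Finset.mem_filter.mp (Finset.mem_coe.mp hp)
      have h1 := (Finset.mem_filter.mp hp'.1).2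
      have h2 := hp'.2
      refine Finset.mem_coe.mpr (Multiset.mem_toFinset.mpr ?_)
      rw [Polynomial.mem_nthRoots (by norm_num), ← h2, ← h1]
      ring
    · intro p hp q hq hpq
      have hp' := Finset.mem_filter.mp (Finset.mem_coe.mp hp)
      have hq' := Finset.mem_filter.mp (Finset.mem_coe.mp hq)
      have h3 := hp'.2.trans hq'.2.symm
      exact vec_ext (congrArg Prod.fst h3) (congrArg Prod.snd h3) hpq
  rwa [Finset.card_univ, Fintype.card_prod, ← sq] at h

theorem scov (l : ℕ) (hl : l.Prime) (n : ℤ) :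
    Cov {P : V | F P = n} (Cong (l : ℤ)) (3 * l ^ 2) := by
  classical
  have : Fact l.Prime := ⟨hl⟩
  have hc := scov_count ((n : ℤ) : ZMod l)
  rw [ZMod.card] at hc
  refine cov_mono (cov_label _ (fun P : V => fun k => ((P k : ℤ) : ZMod l)) ?_ ?_)
    (fun P hP => hP) (fun P _ P' _ h => h) hc
  · intro P hP
    refine Finset.mem_filter.mpr ⟨Finset.mem_univ _, ?_⟩
    have hP' : F P = n := hP
    rw [← hP']
    simp [F]
  · intro P _ P' _ h k
    exact (ZMod.intCast_eq_intCast_iff_dvd_sub (P' k) (P k) l).mp (congrFun h k).symm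

theorem cov3 (Z : Set V) : Cov Z (Cong 3) 27 := by
  have hc := cov_label (Z := Z) (r := Cong 3)
    (Finset.univ : Finset (Fin 3 → ZMod 3)) (fun P k => ((P k : ℤ) : ZMod 3))
    (fun _ _ => Finset.mem_univ _) ?_
  · simpa using hc
  · intro P _ P' _ he c
    have := (ZMod.intCast_eq_intCast_iff_dvd_sub _ _ _).1 (congrFun he c).symm
    simpa using this

theorem qcov3 (n q B T : ℕ) (hn : q ^ 3 ∣ n) (hn1 : 1 ≤ n) (hq : 1 ≤ q) (hT : TB n T) :
    Cov (Sol n B) (Crs (3 * (q : ℤ))) (3 * q * T ^ 4) := by
  have hm : 3 * q ≠ 0 := by omega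
  have hqn : q ∣ n := (dvd_pow_self q (by norm_num)).trans hn
  have key := cov_prod (Z := Sol n B) (fun m => Crs (m : ℤ)) (fun P P' i j => by simp)
    (fun m m' hc P P' h h' i j => by
      push_cast
      exact (Nat.isCoprime_iff_coprime.2 hc).mul_dvd (h i j) (h' i j))
    (3 * q).primeFactors (fun p hp => Nat.prime_of_mem_primeFactors hp) (3 * q).factorization
    (fun p => 9 * p ^ (3 * q).factorization p) (by
      intro p hp
      have hpp := Nat.prime_of_mem_primeFactors hp
      have hd : p ^ (3 * q).factorization p ∣ 3 * q := Nat.ordProj_dvd _ _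
      refine qcov_prime n B p _ hpp
        (hpp.factorization_pos_of_dvd hm (Nat.dvd_of_mem_primeFactors hp)) ?_
      by_cases h : p = 3
      · subst h
        right
        by_cases h' : 3 ∣ q
        · left
          refine ⟨rfl, ?_⟩
          have h1 : 3 ^ ((3 * q).factorization 3 + 1) ∣ 9 * q := by
            rw [pow_succ, show 9 * q = 3 * q * 3 by ring]
            exact Nat.mul_dvd_mul_right hd 3
          refine h1.trans (dvd_trans ?_ hn)
          rw [show 9 * q = 3 * 3 * q by ring, show q ^ 3 = q * q * q by ring]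
          exact Nat.mul_dvd_mul_right (Nat.mul_dvd_mul h' h') q
        · right
          refine ⟨rfl, ?_⟩
          rw [Nat.factorization_mul (by norm_num) (by omega), Finsupp.add_apply,
            Nat.prime_three.factorization_self, Nat.factorization_eq_zero_of_not_dvd h']
      · left
        refine ⟨h, dvd_trans ?_ hqn⟩
        exact (Nat.Coprime.pow_left _
          ((Nat.coprime_primes hpp Nat.prime_three).2 h)).dvd_of_dvd_mul_left hd)
  have e1 : ∏ p ∈ (3 * q).primeFactors, p ^ (3 * q).factorization p = 3 * q :=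
    Nat.prod_factorization_pow_eq_self hm
  rw [Finset.prod_mul_distrib, Finset.prod_const, e1] at key
  refine cov_mono key (fun _ h => h) (fun P _ P' _ h => by exact_mod_cast h) ?_
  have h1 := omega_le (3 * q) hm
  have h2 : (3 * q).divisors.card ≤ T := by
    refine hT _ (by omega) ?_
    have := Nat.le_of_dvd hn1 hqn
    exact le_trans (by omega) (Nat.le_self_pow (by norm_num) (4 * n))
  rw [mul_comm]
  refine Nat.mul_le_mul_left _ ?_
  calc 9 ^ (3 * q).primeFactors.card ≤ (2 ^ 4) ^ (3 * q).primeFactors.card :=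
        Nat.pow_le_pow_left (by norm_num) _
    _ = (2 ^ (3 * q).primeFactors.card) ^ 4 := by rw [← pow_mul, ← pow_mul, mul_comm]
    _ ≤ T ^ 4 := Nat.pow_le_pow_left (h1.trans h2) 4

end Pool.Agent.Lib.MP_9c5702_nt.QB
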