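import Pool.Agent.Lib.MP_9c5702_nt.QB.Defs

/-! Low monomials are independent on the surface. -/

set_option autoImplicit false

namespace Pool.Agent.Lib.MP_9c5702_nt.QB

open MvPolynomial Pool.Agent.Lib.MP_9c5702_nt.Q4

lemma indep_eval (n : ℤ) (hn : n ≠ 0) (D : ℕ) (c : I3 → ℤ) (e : I3 → ℕ) (he : ∀ r, e r ≤ D)
    (h : ∑ r ∈ Low D, C (c r * n ^ (D - e r)) * monP r * FP ^ e r = 0) (P : V) :
    ∑ r ∈ Low D, c r * mon r P = 0 := by
  set x := P 0 with hx
  set y := P 1 with hy
  let f : Fin 3 → Polynomial ℤ := ![Polynomial.C x, Polynomial.C y, Polynomial.X]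
  let G : Polynomial ℤ := Polynomial.C x ^ 3 + Polynomial.C y ^ 3 + Polynomial.X ^ 3
  let t : I3 → Polynomial ℤ := fun r =>
    Polynomial.C x ^ r.1 * Polynomial.C y ^ r.2.1 * Polynomial.X ^ r.2.2
  have h1 : ∑ r ∈ Low D, Polynomial.C (c r * n ^ (D - e r)) * t r * G ^ e r = 0 := by
    have := congrArg (aeval (R := ℤ) f) h
    rw [map_sum, map_zero] at this
    rw [← this]
    refine Finset.sum_congr rfl fun r _ => ?_
    simp [monP, FP, f, G, t]
  let m : Polynomial ℤ := Polynomial.X ^ 3 + Polynomial.C (x ^ 3 + y ^ 3 - n)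
  have hm : m.Monic := Polynomial.monic_X_pow_add_C _ (by norm_num)
  have hmd : m.natDegree = 3 := Polynomial.natDegree_X_pow_add_C
  have hG : G - Polynomial.C n = m := by
    simp only [G, m, map_sub, map_add, map_pow]
    ring
  let p : Polynomial ℤ := ∑ r ∈ Low D, Polynomial.C (c r * n ^ D) * t r
  have hdvd : m ∣ p := by
    have h2 : p = -∑ r ∈ Low D, Polynomial.C (c r * n ^ (D - e r)) * t r *
        (G ^ e r - Polynomial.C n ^ e r) := by
      simp only [mul_sub, Finset.sum_sub_distrib, h1, zero_sub, neg_neg, p]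
      refine Finset.sum_congr rfl fun r _ => ?_
      have : n ^ D = n ^ (D - e r) * n ^ e r := by
        rw [← pow_add, Nat.sub_add_cancel (he r)]
      rw [this]
      simp only [map_mul, map_pow]
      ring
    rw [h2, dvd_neg]
    refine Finset.dvd_sum fun r _ => Dvd.dvd.mul_left ?_ _
    rw [← hG]
    exact sub_dvd_pow_sub_pow _ _ _
  have hpd : p.natDegree ≤ 2 := by
    refine Polynomial.natDegree_sum_le_of_forall_le _ _ fun r hr => ?_
    have hr2 := (mem_Low.1 hr).1
    have : Polynomial.C (c r * n ^ D) * t r =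
        Polynomial.C (c r * n ^ D * x ^ r.1 * y ^ r.2.1) * Polynomial.X ^ r.2.2 := by
      simp only [t, map_mul, map_pow]
      ring
    rw [this]
    exact (Polynomial.natDegree_C_mul_X_pow_le _ _).trans hr2
  have hp0 : p = 0 := Polynomial.eq_zero_of_dvd_of_natDegree_lt hdvd (by omega)
  have h3 := congrArg (Polynomial.eval (P 2)) hp0
  simp only [p, t, Polynomial.eval_finsetSum, Polynomial.eval_mul, Polynomial.eval_C,
    Polynomial.eval_pow, Polynomial.eval_X, Polynomial.eval_zero] at h3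
  have h4 : n ^ D * ∑ r ∈ Low D, c r * mon r P = 0 := by
    rw [← h3, Finset.mul_sum]
    refine Finset.sum_congr rfl fun r _ => ?_
    simp only [mon, ← hx, ← hy]
    ring
  exact (mul_eq_zero.1 h4).resolve_left (pow_ne_zero _ hn)

noncomputable def exI (r : I3) : Fin 3 →₀ ℕ :=
  Finsupp.single 0 r.1 + Finsupp.single 1 r.2.1 + Finsupp.single 2 r.2.2

lemma exI_inj {r s : I3} (h : exI r = exI s) : r = s := by
  have h0 := congrArg (fun g : Fin 3 →₀ ℕ => g 0) h
  have h1 := congrArg (fun g : Fin 3 →₀ ℕ => g 1) h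
  have h2 := congrArg (fun g : Fin 3 →₀ ℕ => g 2) h
  simp [exI] at h0 h1 h2
  exact Prod.ext h0 (Prod.ext h1 h2)

lemma monP_eq (r : I3) : monP r = monomial (exI r) 1 := by
  simp only [monP, exI, X_pow_eq_monomial, monomial_mul, mul_one]

theorem low_indep (n : ℤ) (hn : n ≠ 0) (D : ℕ) (c : I3 → ℤ) (e : I3 → ℕ) (he : ∀ r, e r ≤ D)
    (h : ∑ r ∈ Low D, C (c r * n ^ (D - e r)) * monP r * FP ^ e r = 0) :
    ∀ r ∈ Low D, c r = 0 := by
  have h1 : ∑ r ∈ Low D, C (c r) * monP r = 0 := by
    refine MvPolynomial.funext fun P => ?_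
    rw [map_sum, map_zero, ← indep_eval n hn D c e he h P]
    refine Finset.sum_congr rfl fun r _ => ?_
    rw [map_mul, eval_C, eval_monP]
  intro r hr
  have h2 := congrArg (coeff (exI r)) h1
  rw [coeff_sum, coeff_zero, Finset.sum_eq_single r] at h2
  · rwa [coeff_C_mul, monP_eq, coeff_monomial, if_pos rfl, mul_one] at h2
  · intro s _ hs
    have : exI s ≠ exI r := fun h => hs (exI_inj h)
    rw [coeff_C_mul, monP_eq, coeff_monomial, if_neg this, mul_zero]
  · intro h; exact absurd hr h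

end Pool.Agent.Lib.MP_9c5702_nt.QB
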