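import Pool.Agent.Lib.MP_9c5702_nt.QB.Norm
import Pool.Agent.Lib.MP_9c5702_nt.QB.Indep

/-! From a relation among low monomials to a form. -/

set_option autoImplicit false

namespace Pool.Agent.Lib.MP_9c5702_nt.QB

open MvPolynomial Pool.Agent.Lib.MP_9c5702_nt.Q4

lemma nf_FP : FP.IsHomogeneous 3 :=
  ((isHomogeneous_X_pow 0 3).add (isHomogeneous_X_pow 1 3)).add (isHomogeneous_X_pow 2 3)

lemma nf_monP (r : I3) : (monP r).IsHomogeneous (dg r) :=
  ((isHomogeneous_X_pow 0 _).mul (isHomogeneous_X_pow 1 _)).mul (isHomogeneous_X_pow 2 _)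

/-- the part of the homogenised relation of degree `D - b` -/
noncomputable def nfG (n : ℤ) (D : ℕ) (c : I3 → ℤ) (b : ℕ) : MvPolynomial (Fin 3) ℤ :=
  ∑ r ∈ (Low D).filter (fun r => (D - dg r) % 3 = b),
    C (c r * n ^ (D - ee D r)) * monP r * FP ^ ee D r

lemma nfG_hom (n : ℤ) (D : ℕ) (c : I3 → ℤ) (b d : ℕ) (h : d + b = D) :
    (nfG n D c b).IsHomogeneous d := by
  refine IsHomogeneous.sum _ _ _ fun r hr => ?_
  obtain ⟨h1, h2⟩ := Finset.mem_filter.1 hr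
  have h3 := (mem_Low.1 h1).2
  have e : d = 0 + dg r + 3 * ee D r := by
    unfold ee
    omega
  rw [e]
  exact ((isHomogeneous_C _ _).mul (nf_monP r)).mul (nf_FP.pow _)

lemma nfG_sum (n : ℤ) (D : ℕ) (c : I3 → ℤ) :
    nfG n D c 0 + nfG n D c 1 + nfG n D c 2 =
      ∑ r ∈ Low D, C (c r * n ^ (D - ee D r)) * monP r * FP ^ ee D r := by
  simp only [nfG, Finset.sum_filter, ← Finset.sum_add_distrib]
  refine Finset.sum_congr rfl fun r _ => ?_
  have : (D - dg r) % 3 = 0 ∨ (D - dg r) % 3 = 1 ∨ (D - dg r) % 3 = 2 := by omega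
  rcases this with h | h | h <;> simp [h]

lemma ee_le (D : ℕ) (r : I3) : ee D r ≤ D := by
  unfold ee
  omega

theorem norm_form (n : ℤ) (hn : n ≠ 0) (D : ℕ) (hD : 2 ≤ D) (W : Finset V)
    (hF : ∀ P ∈ W, F P = n) (c : Low D → ℤ) (hc : c ≠ 0)
    (h0 : ∀ P ∈ W, ∑ r, c r * mon r.1 P = 0) :
    ∃ G : MvPolynomial (Fin 3) ℤ, G ≠ 0 ∧ G.IsHomogeneous (3 * D) ∧ ∀ P ∈ W, eval P G = 0 := by
  classical
  obtain ⟨c', hc'⟩ : ∃ c' : I3 → ℤ, ∀ r : Low D, c' r.1 = c r :=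
    ⟨fun r => if h : r ∈ Low D then c ⟨r, h⟩ else 0, fun r => dif_pos r.2⟩
  obtain ⟨d, rfl⟩ : ∃ d, D = d + 2 := ⟨D - 2, by omega⟩
  have g0 := nfG_hom n (d + 2) c' 0 (d + 2) rfl
  have g1 := nfG_hom n (d + 2) c' 1 (d + 1) rfl
  have g2 := nfG_hom n (d + 2) c' 2 d rfl
  have hs := nfG_sum n (d + 2) c'
  generalize nfG n (d + 2) c' 0 = G0 at g0 hs
  generalize nfG n (d + 2) c' 1 = G1 at g1 hs
  generalize nfG n (d + 2) c' 2 = G2 at g2 hs
  refine ⟨C n ^ 2 * G0 ^ 3 + C n * G1 ^ 3 * FP + G2 ^ 3 * FP ^ 2 - 3 * C n * G0 * G1 * G2 * FP,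
    fun h => hc ?_, ?_, fun P hP => ?_⟩
  · obtain ⟨rfl, rfl, rfl⟩ := norm_ne n hn G0 G1 G2 h
    funext r
    rw [← hc' r]
    exact low_indep n hn (d + 2) c' (ee (d + 2)) (ee_le _) (by rw [← hs]; simp) r.1 r.2
  · have hC : (C n : MvPolynomial (Fin 3) ℤ).IsHomogeneous 0 := isHomogeneous_C _ _
    have h3 : (3 : MvPolynomial (Fin 3) ℤ).IsHomogeneous 0 := isHomogeneous_C (Fin 3) (3 : ℤ)
    have a0 := (hC.pow 2).mul (g0.pow 3)
    have a1 := (hC.mul (g1.pow 3)).mul nf_FP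
    have a2 := (g2.pow 3).mul (nf_FP.pow 2)
    have a3 := ((((h3.mul hC).mul g0).mul g1).mul g2).mul nf_FP
    rw [show 0 * 2 + (d + 2) * 3 = 3 * (d + 2) by ring] at a0
    rw [show 0 + (d + 1) * 3 + 3 = 3 * (d + 2) by ring] at a1
    rw [show d * 3 + 3 * 2 = 3 * (d + 2) by ring] at a2
    rw [show 0 + 0 + (d + 2) + (d + 1) + d + 3 = 3 * (d + 2) by ring] at a3
    exact ((a0.add a1).add a2).sub a3
  · have e : eval P G0 + eval P G1 + eval P G2 = 0 := by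
      rw [← map_add, ← map_add, hs, map_sum, ← Finset.sum_coe_sort, ← mul_zero (n ^ (d + 2)),
        ← h0 P hP, Finset.mul_sum]
      refine Finset.sum_congr rfl fun r _ => ?_
      have k : n ^ (d + 2) = n ^ (d + 2 - ee (d + 2) r.1) * n ^ ee (d + 2) r.1 := by
        rw [← pow_add, Nat.sub_add_cancel (ee_le (d + 2) r.1)]
      rw [map_mul, map_mul, map_pow, eval_C, eval_monP, eval_FP, hF P hP, hc' r, k]
      ring
    have e3 : eval P (3 : MvPolynomial (Fin 3) ℤ) = 3 := map_ofNat _ 3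
    simp only [map_sub, map_add, map_mul, map_pow, eval_C, eval_FP, hF P hP, e3]
    linear_combination n ^ 2 * (eval P G0 ^ 2 + eval P G1 ^ 2 + eval P G2 ^ 2 -
      eval P G0 * eval P G1 - eval P G0 * eval P G2 - eval P G1 * eval P G2) * e

end Pool.Agent.Lib.MP_9c5702_nt.QB
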