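import Pool.Agent.Lib.MP_9c5702_nt.QB.Defs

/-! Counting the low monomials. -/

set_option autoImplicit false

namespace Pool.Agent.Lib.MP_9c5702_nt.QB

open Pool.Agent.Lib.MP_9c5702_nt.Q4

lemma low_top (D : ℕ) : ((Low (D + 1)).filter fun r => ¬ dg r ≤ D).card = 3 * (D + 1) := by
  have h : ((Low (D + 1)).filter fun r => ¬ dg r ≤ D).card =
      ((Finset.range 3).sigma fun l => Finset.range (D + 2 - l)).card := by
    refine Finset.card_nbij' (fun r => ⟨r.2.2, r.1⟩) (fun s => (s.2, D + 1 - s.1 - s.2, s.1))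
      ?_ ?_ ?_ ?_
    · intro r hr
      simp only [Finset.coe_filter, mem_Low, dg, Set.mem_ofPred_eq] at hr
      simp only [Finset.mem_coe, Finset.mem_sigma, Finset.mem_range]
      omega
    · intro s hs
      simp only [Finset.mem_coe, Finset.mem_sigma, Finset.mem_range] at hs
      simp only [Finset.coe_filter, mem_Low, dg, Set.mem_ofPred_eq]
      omega
    · rintro ⟨i, j, l⟩ hr
      simp only [Finset.coe_filter, mem_Low, dg, Set.mem_ofPred_eq] at hr
      simp only [Prod.mk.injEq, true_and, and_true]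
      omega
    · intro s _
      rfl
  rw [h, Finset.card_sigma]
  simp only [Finset.card_range, Finset.sum_range_succ, Finset.sum_range_zero]
  omega

lemma low_step (f : ℕ → ℕ) (D : ℕ) :
    ∑ r ∈ Low (D + 1), f (dg r) = ∑ r ∈ Low D, f (dg r) + 3 * (D + 1) * f (D + 1) := by
  rw [← Finset.sum_filter_add_sum_filter_not (Low (D + 1)) (fun r => dg r ≤ D)]
  have h1 : (Low (D + 1)).filter (fun r => dg r ≤ D) = Low D := by
    ext r
    simp only [Finset.mem_filter, mem_Low]
    omega
  rw [h1, ← low_top D, ← smul_eq_mul, ← Finset.sum_const]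
  congr 1
  refine Finset.sum_congr rfl fun r hr => ?_
  simp only [Finset.mem_filter, mem_Low] at hr
  congr 1
  omega

lemma low_zero : Low 0 = {(0, 0, 0)} := by decide

theorem low_card (D : ℕ) : 2 * (Low D).card = 3 * D ^ 2 + 3 * D + 2 := by
  induction D with
  | zero => simp [low_zero]
  | succ D ih =>
    have := low_step (fun _ => 1) D
    simp only [Finset.sum_const, smul_eq_mul, mul_one] at this
    rw [this, mul_add, ih]
    ring

theorem low_deg (D : ℕ) : 2 * ∑ r ∈ Low D, dg r = D * (D + 1) * (2 * D + 1) := by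
  induction D with
  | zero => simp [low_zero, dg]
  | succ D ih =>
    rw [low_step (fun d => d) D, mul_add, ih]
    ring

theorem low_e (D : ℕ) : 6 * ∑ r ∈ Low D, ee D r ≤ D ^ 3 + D := by
  have h : ∑ r ∈ Low D, (3 * ee D r + dg r) ≤ ∑ r ∈ Low D, D :=
    Finset.sum_le_sum fun r hr => by
      have := (mem_Low.1 hr).2
      unfold ee
      omega
  rw [Finset.sum_add_distrib, ← Finset.mul_sum, Finset.sum_const, smul_eq_mul] at h
  have h1 := low_card D
  have h2 := low_deg D
  have h3 : 2 * ((Low D).card * D) = (3 * D ^ 2 + 3 * D + 2) * D := by rw [← h1]; ring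
  nlinarith

end Pool.Agent.Lib.MP_9c5702_nt.QB
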