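import Pool.Agent.Lib.MP_9c5702_nt.QB.Defs
import Pool.Agent.Lib.MP_9c5702_nt.Q4.Wts

/-! Sums of weights. -/

set_option autoImplicit false

namespace Pool.Agent.Lib.MP_9c5702_nt.QB

open Pool.Agent.Lib.MP_9c5702_nt.Q4

theorem wts_tri (m : ℕ) : 2 * Nb 1 m = m * (m + 1) := by
  have e : Nb 1 m = ∑ j ∈ Finset.range m, (m - j) := by
    unfold Nb
    rw [Finset.card_filter, Finset.sum_product_right]
    refine Finset.sum_congr rfl fun j _ => ?_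
    rw [← Finset.card_filter]
    have : (Finset.range m).filter (fun i => i + 1 * j < m) = Finset.range (m - j) := by
      ext i
      simp only [Finset.mem_filter, Finset.mem_range]
      omega
    rw [this, Finset.card_range]
  rw [e]
  clear e
  induction m with
  | zero => simp
  | succ m ih =>
    rw [Finset.sum_range_succ']
    simp only [Nat.add_sub_add_right, Nat.sub_zero]
    nlinarith

theorem wts_cut (f : ℕ → ℕ) (s τ : ℕ) (R : ℝ)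
    (h : R ≤ (τ : ℝ) * s - ((∑ k ∈ Finset.Icc 1 τ, f k : ℕ) : ℝ)) :
    ∃ w τ' : ℕ, w + ∑ k ∈ Finset.Icc 1 τ', f k ≤ τ' * s ∧ R ≤ w := by
  rcases le_total (∑ k ∈ Finset.Icc 1 τ, f k) (τ * s) with k | k
  · refine ⟨τ * s - ∑ k ∈ Finset.Icc 1 τ, f k, τ, by omega, ?_⟩
    rw [Nat.cast_sub k, Nat.cast_mul]
    exact h
  · refine ⟨0, 0, by simp, ?_⟩
    have k' : ((τ * s : ℕ) : ℝ) ≤ ((∑ k ∈ Finset.Icc 1 τ, f k : ℕ) : ℝ) := Nat.cast_le.2 k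
    rw [Nat.cast_mul] at k'
    rw [Nat.cast_zero]
    linarith

theorem wts_sqrt (c D : ℕ) : (Nat.sqrt (c * D ^ 2) : ℝ) ≤ √(c : ℝ) * D ∧
    √(c : ℝ) * D - 1 ≤ (Nat.sqrt (c * D ^ 2) : ℝ) := by
  have e : √(c : ℝ) * D = √((c * D ^ 2 : ℕ) : ℝ) := by
    rw [Nat.cast_mul, Nat.cast_pow, Real.sqrt_mul (Nat.cast_nonneg _),
      Real.sqrt_sq (Nat.cast_nonneg _)]
  rw [e]
  exact ⟨Real.nat_sqrt_le_real_sqrt, by linarith [Real.real_sqrt_le_nat_sqrt_succ (a := c * D ^ 2)]⟩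

theorem Nab_le (a b k : ℕ) (ha : 1 ≤ a) (hb : 1 ≤ b) :
    2 * a * b * Nab a b k ≤ (k + a + b) ^ 2 := by
  obtain ⟨m, hm⟩ : ∃ m, k + a + b = m + 1 := ⟨k + a + b - 1, by omega⟩
  have h1 : Nab a b k * (a * b) ≤ Nb 1 m := by
    unfold Nab Nb
    have e : a * b = (Finset.range a ×ˢ Finset.range b).card := by
      rw [Finset.card_product, Finset.card_range, Finset.card_range]
    rw [e, ← Finset.card_product]
    refine Finset.card_le_card_of_injOn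
      (fun z : (ℕ × ℕ) × ℕ × ℕ => (a * z.1.1 + z.2.1, b * z.1.2 + z.2.2)) ?_ ?_
    · rintro ⟨⟨i, j⟩, r, t⟩ hz
      simp only [Finset.coe_product, Finset.coe_filter, Finset.mem_product, Finset.mem_range,
        Set.mem_prod, Set.mem_ofPred_eq, Finset.coe_range, Set.mem_Iio] at hz ⊢
      omega
    · rintro ⟨⟨i, j⟩, r, t⟩ hz ⟨⟨i', j'⟩, r', t'⟩ hz' e
      simp only [Finset.coe_product, Finset.coe_filter, Finset.mem_product, Finset.mem_range,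
        Set.mem_prod, Set.mem_ofPred_eq, Finset.coe_range, Set.mem_Iio, Prod.mk.injEq] at hz hz' e ⊢
      have key : ∀ c u v u' v' : ℕ, v < c → v' < c → c * u + v = c * u' + v' → u = u' ∧ v = v' := by
        intro c u v u' v' h h' e
        have e1 : (c * u + v) % c = (c * u' + v') % c := by rw [e]
        rw [Nat.mul_add_mod, Nat.mul_add_mod, Nat.mod_eq_of_lt h, Nat.mod_eq_of_lt h'] at e1
        exact ⟨Nat.eq_of_mul_eq_mul_left (by omega : 0 < c) (by omega), e1⟩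
      obtain ⟨a1, a2⟩ := key a i r i' r' hz.2.1 hz'.2.1 e.1
      obtain ⟨a3, a4⟩ := key b j t j' t' hz.2.2 hz'.2.2 e.2
      exact ⟨⟨a1, a3⟩, a2, a4⟩
  have h2 := wts_tri m
  rw [hm]
  nlinarith

theorem Nab_sum (a b τ : ℕ) (ha : 1 ≤ a) (hb : 1 ≤ b) :
    2 * a * b * ∑ k ∈ Finset.Icc 1 τ, 3 * Nab a b k ≤ (τ + a + b + 1) ^ 3 := by
  induction τ with
  | zero => simp
  | succ τ ih =>
    rw [Finset.sum_Icc_succ_top (by omega), mul_add]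
    have h := Nab_le a b (τ + 1) ha hb
    have e1 : τ + 1 + a + b = τ + a + b + 1 := by ring
    rw [e1] at h ⊢
    generalize τ + a + b + 1 = t at h ih ⊢
    have e2 : 2 * a * b * (3 * Nab a b (τ + 1)) = 3 * (2 * a * b * Nab a b (τ + 1)) := by ring
    have e3 : (t + 1) ^ 3 = t ^ 3 + 3 * t ^ 2 + (3 * t + 1) := by ring
    omega

theorem wab (a b D s : ℕ) (ha : 1 ≤ a) (hab : 3 * a ≤ b) (hba : b ≤ 36 * a) (hD : 1 ≤ D)
    (hs : 2 * s = 3 * D ^ 2 + 3 * D + 2) :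
    ∃ w τ : ℕ, w + ∑ k ∈ Finset.Icc 1 τ, 3 * Nab a b k ≤ τ * s ∧
      √((a : ℝ) * b) * (D : ℝ) ^ 3 - 200 * b * (D : ℝ) ^ 2 ≤ w := by
  refine wts_cut (fun k => 3 * Nab a b k) s (Nat.sqrt (a * b * D ^ 2)) _ ?_
  obtain ⟨t1, t2⟩ := wts_sqrt (a * b) D
  have h1 := Nab_sum a b (Nat.sqrt (a * b * D ^ 2)) ha (by omega)
  generalize ∑ k ∈ Finset.Icc 1 (Nat.sqrt (a * b * D ^ 2)), 3 * Nab a b k = X at h1 ⊢
  generalize Nat.sqrt (a * b * D ^ 2) = τ at h1 t1 t2 ⊢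
  rw [Nat.cast_mul] at t1 t2
  have a1 : (1 : ℝ) ≤ a := by exact_mod_cast ha
  have a2 : (3 : ℝ) * a ≤ b := by exact_mod_cast hab
  have a3 : (b : ℝ) ≤ 36 * a := by exact_mod_cast hba
  have a4 : (1 : ℝ) ≤ D := by exact_mod_cast hD
  have a5 : (2 : ℝ) * s = 3 * (D : ℝ) ^ 2 + 3 * D + 2 := by exact_mod_cast hs
  have a6 : (2 : ℝ) * a * b * X ≤ ((τ : ℝ) + a + b + 1) ^ 3 := by exact_mod_cast h1
  have b0 : (0 : ℝ) < b := by linarith
  have x0 : 0 < √((a : ℝ) * b) := Real.sqrt_pos.2 (by positivity)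
  have x2 : √((a : ℝ) * b) ^ 2 = a * b := Real.sq_sqrt (by positivity)
  generalize √((a : ℝ) * b) = x at x0 x2 t1 t2 ⊢
  have b6 : (b : ℝ) ≤ 6 * x := by
    refine (pow_le_pow_iff_left₀ b0.le (by positivity) two_ne_zero).1 ?_
    nlinarith
  have c1 : ((τ : ℝ) + a + b + 1) ^ 3 ≤ (x * D + 2 * b) ^ 3 :=
    pow_le_pow_left₀ (by positivity) (by linarith) 3
  have c2 : (b : ℝ) * b ≤ 36 * x ^ 2 := by nlinarith
  have d2 : (D : ℝ) ≤ (D : ℝ) ^ 2 := by nlinarith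
  have c3 : (x * D + 2 * b) ^ 3 ≤ 2 * x ^ 2 * (x * (D : ℝ) ^ 3 / 2 + 183 * b * (D : ℝ) ^ 2) := by
    have e1 : x * D * b * b ≤ x * D * b * (6 * x) := mul_le_mul_of_nonneg_left b6 (by positivity)
    have e2 : (b : ℝ) * (b * b) ≤ b * (36 * x ^ 2) := mul_le_mul_of_nonneg_left c2 b0.le
    have e3 : x ^ 2 * b * D ≤ x ^ 2 * b * (D : ℝ) ^ 2 := mul_le_mul_of_nonneg_left d2 (by positivity)
    have e4 : x ^ 2 * b * 1 ≤ x ^ 2 * b * (D : ℝ) ^ 2 :=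
      mul_le_mul_of_nonneg_left (a4.trans d2) (by positivity)
    linarith
  have c4 : (X : ℝ) ≤ x * (D : ℝ) ^ 3 / 2 + 183 * b * (D : ℝ) ^ 2 := by
    refine le_of_mul_le_mul_left (a := 2 * x ^ 2) ?_ (by positivity)
    refine le_trans (le_of_eq ?_) (a6.trans (c1.trans c3))
    rw [x2]; ring
  have c5 : (x * D - 1) * s ≤ τ * s := mul_le_mul_of_nonneg_right t2 (Nat.cast_nonneg _)
  have c6 : x * D * (3 * (D : ℝ) ^ 2) ≤ x * D * (2 * s) :=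
    mul_le_mul_of_nonneg_left (by linarith) (by positivity)
  have c7 : (1 : ℝ) * (D : ℝ) ^ 2 ≤ b * (D : ℝ) ^ 2 :=
    mul_le_mul_of_nonneg_right (by linarith) (by positivity)
  linarith

theorem w11 (D s : ℕ) (hD : 1 ≤ D) (hs : 2 * s = 3 * D ^ 2 + 3 * D + 2) :
    ∃ w τ : ℕ, w + ∑ k ∈ Finset.Icc 1 τ, Nb 1 k ≤ τ * s ∧
      √3 * (D : ℝ) ^ 3 - 5 * (D : ℝ) ^ 2 ≤ w := by
  refine wts_cut (fun k => Nb 1 k) s (Nat.sqrt (3 * D ^ 2)) _ ?_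
  obtain ⟨t1, t2⟩ := wts_sqrt 3 D
  have h1 : ∀ m : ℕ, 6 * ∑ k ∈ Finset.Icc 1 m, Nb 1 k ≤ (m + 1) ^ 3 := by
    intro m
    induction m with
    | zero => simp
    | succ m ih =>
      rw [Finset.sum_Icc_succ_top (by omega)]
      have := wts_tri (m + 1)
      nlinarith
  have h2 := h1 (Nat.sqrt (3 * D ^ 2))
  generalize ∑ k ∈ Finset.Icc 1 (Nat.sqrt (3 * D ^ 2)), Nb 1 k = X at h2 ⊢
  generalize Nat.sqrt (3 * D ^ 2) = τ at h2 t1 t2 ⊢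
  rw [Nat.cast_ofNat] at t1 t2
  have a4 : (1 : ℝ) ≤ D := by exact_mod_cast hD
  have a5 : (2 : ℝ) * s = 3 * (D : ℝ) ^ 2 + 3 * D + 2 := by exact_mod_cast hs
  have a6 : (6 : ℝ) * X ≤ ((τ : ℝ) + 1) ^ 3 := by exact_mod_cast h2
  have x0 : 0 < √(3 : ℝ) := Real.sqrt_pos.2 (by norm_num)
  have x2 : √(3 : ℝ) ^ 2 = 3 := Real.sq_sqrt (by norm_num)
  generalize √(3 : ℝ) = x at x0 x2 t1 t2 ⊢
  have x1 : 1 ≤ x := by nlinarith
  have c1 : ((τ : ℝ) + 1) ^ 3 ≤ (x * D + 1) ^ 3 :=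
    pow_le_pow_left₀ (by positivity) (by linarith) 3
  have e1 : (x * D + 1) ^ 3 = 3 * (x * (D : ℝ) ^ 3) + 9 * (D : ℝ) ^ 2 + 3 * (x * D) + 1 := by
    linear_combination (x * (D : ℝ) ^ 3 + 3 * (D : ℝ) ^ 2) * x2
  have c5 : (x * D - 1) * s ≤ τ * s := mul_le_mul_of_nonneg_right t2 (Nat.cast_nonneg _)
  have e2 : 2 * ((x * D - 1) * s) = 3 * (x * (D : ℝ) ^ 3) + 3 * (x * (D : ℝ) ^ 2) + 2 * (x * D) -
      3 * (D : ℝ) ^ 2 - 3 * D - 2 := by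
    linear_combination (x * D - 1) * a5
  have d2 : (D : ℝ) ≤ (D : ℝ) ^ 2 := by nlinarith
  have c6 : 1 * (D : ℝ) ^ 2 ≤ x * (D : ℝ) ^ 2 := mul_le_mul_of_nonneg_right x1 (by positivity)
  have c7 : 0 ≤ x * (D : ℝ) := by positivity
  linarith

end Pool.Agent.Lib.MP_9c5702_nt.QB
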