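import Pool.Agent.Lib.MP_9c5702_nt.QB.Det3
import Pool.Agent.Lib.MP_9c5702_nt.QB.Wts
import Pool.Agent.Lib.MP_9c5702_nt.QB.Low
import Pool.Agent.Lib.MP_9c5702_nt.Q4.Apx

/-! The power of one prime in the determinant of low monomials. -/

set_option autoImplicit false

namespace Pool.Agent.Lib.MP_9c5702_nt.QB

open MvPolynomial Pool.Agent.Lib.MP_9c5702_nt.Q4

theorem pdet_apx {q π n ν : ℤ} {b w : ℕ} {W : Finset V} {u κ f : V → ℤ} (hq : π ∣ q)
    (hn : n = π ^ b * ν) (h : Apx q w W u (fun P => n * κ P) f) :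
    Apx π w W u (fun P => π ^ b * κ P) f := by
  obtain ⟨g, hg⟩ := h
  have key : Apx π w W u (fun P => π ^ b * κ P) (fun P => eval ![u P, n * κ P] g) := by
    clear hg
    induction g using MvPolynomial.induction_on with
    | C c => simpa using apx_const c
    | add p q hp hq => simpa using hp.add hq
    | mul_X p a hp =>
      have h0 : Apx π w W u (fun P => π ^ b * κ P)
          (fun P => (![u P, n * κ P] : Fin 2 → ℤ) a) := by
        fin_cases a
        · exact apx_u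
        · refine ((apx_const ν).mul apx_t).congr fun P _ => ⟨0, ?_⟩
          change n * κ P - ν * (π ^ b * κ P) = _
          rw [hn]; ring
      simpa using hp.mul h0
  exact key.congr fun P hP => (pow_dvd_pow_of_dvd hq w).trans (hg P hP)

theorem pdet_pow {π : ℤ} {m : ℕ} {W : Finset V} {u t f : V → ℤ} (h : Apx π m W u t f) (e : ℕ) :
    Apx π m W u t (fun P => f P ^ e) := by
  induction e with
  | zero => simpa using apx_const 1
  | succ e ih => simpa [pow_succ] using ih.mul h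

theorem pdet_cong (M π c c' κ : ℤ) (b e : ℕ) (r : I3) (P Pt : V) (h1 : M ∣ c * c' - 1)
    (h2 : c' ^ 3 = 9 * κ + 1) (h3 : ∀ k, M ∣ P k - c * Pt k) :
    M ∣ π ^ (b * e) * mon r P -
      c ^ (dg r + 3 * e) * ((9 * (π ^ b * κ) + π ^ b) ^ e * mon r Pt) := by
  have e1 : ∀ k, c * Pt k ≡ P k [ZMOD M] := fun k => (Int.modEq_iff_dvd).2 (h3 k)
  have e2 : (1 : ℤ) ≡ c * c' [ZMOD M] := (Int.modEq_iff_dvd).2 h1
  have e3 : c ^ dg r * mon r Pt ≡ mon r P [ZMOD M] := by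
    have : c ^ dg r * mon r Pt =
        (c * Pt 0) ^ r.1 * (c * Pt 1) ^ r.2.1 * (c * Pt 2) ^ r.2.2 := by
      simp only [dg, mon, mul_pow, pow_add]; ring
    rw [this]
    exact (((e1 0).pow _).mul ((e1 1).pow _)).mul ((e1 2).pow _)
  have e4 : 9 * (π ^ b * κ) + π ^ b = π ^ b * c' ^ 3 := by rw [h2]; ring
  have e5 : c ^ (dg r + 3 * e) * ((9 * (π ^ b * κ) + π ^ b) ^ e * mon r Pt) =
      π ^ (b * e) * ((c ^ dg r * mon r Pt) * (c * c') ^ (3 * e)) := by
    rw [e4, mul_pow, mul_pow, ← pow_mul, ← pow_mul, pow_add]; ring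
  rw [e5]
  refine (Int.modEq_iff_dvd).1 (Int.ModEq.mul_left _ ?_)
  have e6 := e3.mul (e2.symm.pow (3 * e))
  rwa [one_pow, mul_one] at e6

theorem pdet (q n π : ℤ) (a b : ℕ) (ha : 1 ≤ a) (hb : 1 ≤ b) (hq : π ^ a ∣ q) (hn : π ^ b ∣ n)
    (W : Finset V) (hC : ChartK q n W) (D : ℕ) (p : Low D → V) (hp : ∀ i, p i ∈ W) (w τ : ℕ)
    (hw : w + ∑ k ∈ Finset.Icc 1 τ, 3 * Nab a b k ≤ τ * (Low D).card) :
    π ^ w ∣ π ^ (b * ∑ r ∈ Low D, ee D r) * (lowM D p).det := by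
  obtain ⟨u, κ, c, c', Pt, h1, h2⟩ := hC w
  obtain ⟨ν, hν⟩ := hn
  have hπq : π ∣ q := (dvd_pow_self π (by omega)).trans hq
  have hqw : π ^ w ∣ q ^ w := pow_dvd_pow_of_dvd hπq w
  have hPt : ∀ k, Apx π w W u (fun P => π ^ b * κ P) (fun P => Pt P k) :=
    fun k => pdet_apx hπq hν (h2 k)
  have hf : ∀ r : I3, Apx π w W u (fun P => π ^ b * κ P)
      (fun P => (9 * (π ^ b * κ P) + π ^ b) ^ ee D r * mon r (Pt P)) := fun r =>
    (pdet_pow (((apx_const 9).mul apx_t).add (apx_const _)) _).mul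
      (((pdet_pow (hPt 0) _).mul (pdet_pow (hPt 1) _)).mul (pdet_pow (hPt 2) _))
  choose g hg using hf
  have hdet := det3 π a b ha hb (fun i : Low D => u (p i)) (fun i => π ^ b * κ (p i))
    (fun β i => c (p i) ^ (D - β.1))
    (fun r => ⟨(D - dg r.1) % 3, Nat.mod_lt _ (by norm_num)⟩)
    (fun i => hq.trans (h1 _ (hp i)).1) (fun i => dvd_mul_right _ _) w τ (by simpa using hw)
    (Matrix.of fun r i => π ^ (b * ee D r.1) * lowM D p r i) (fun r => g r.1) (by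
      intro r i
      obtain ⟨-, k1, k2, k3⟩ := h1 _ (hp i)
      have hr := (mem_Low.1 r.2).2
      have hD : D - (D - dg r.1) % 3 = dg r.1 + 3 * ee D r.1 := by
        unfold ee; omega
      have k4 := pdet_cong (π ^ w) π (c (p i)) (c' (p i)) (κ (p i)) b (ee D r.1) r.1 (p i)
        (Pt (p i)) (hqw.trans k1) k2 fun k => hqw.trans (k3 k)
      have k5 : π ^ w ∣ c (p i) ^ (dg r.1 + 3 * ee D r.1) *
          ((9 * (π ^ b * κ (p i)) + π ^ b) ^ ee D r.1 * mon r.1 (Pt (p i)) -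
            eval ![u (p i), π ^ b * κ (p i)] (g r.1)) := (hg r.1 (p i) (hp i)).mul_left _
      have k6 := dvd_add k4 k5
      rw [mul_sub, sub_add_sub_cancel, ← hD] at k6
      exact k6)
  rw [Matrix.det_mul_column, Finset.prod_pow_eq_pow_sum, ← Finset.mul_sum,
    Finset.sum_coe_sort (Low D) (fun r => ee D r)] at hdet
  exact hdet

theorem pdiv (q n π : ℤ) (hπ : π ≠ 0) (a b : ℕ) (hab : 3 * a ≤ b) (hq : π ^ a ∣ q)
    (hn : π ^ b ∣ n) (W : Finset V) (hC : ChartK q n W) (D : ℕ) (hD : 1 ≤ D) :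
    ∃ v : ℕ, (b = 0 → v = 0) ∧ phi a b * (D : ℝ) ^ 3 - 201 * b * (D : ℝ) ^ 2 ≤ v ∧
      ∀ p : Low D → V, (∀ i, p i ∈ W) → π ^ v ∣ (lowM D p).det := by
  have hD' : (1 : ℝ) ≤ D := by exact_mod_cast hD
  have hb0 : (0 : ℝ) ≤ b := Nat.cast_nonneg _
  by_cases h : 1 ≤ a ∧ b ≤ 36 * a
  · obtain ⟨w, τ, hw, hw'⟩ := wab a b D (Low D).card h.1 hab h.2 hD (low_card D)
    have hE := low_e D
    set E := ∑ r ∈ Low D, ee D r with hEd
    refine ⟨w - b * E, fun hb => by omega, ?_, fun p hp => ?_⟩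
    · have k1 : (w : ℝ) - b * E ≤ ((w - b * E : ℕ) : ℝ) := by
        have : w ≤ (w - b * E) + b * E := by omega
        have k : (w : ℝ) ≤ ((w - b * E : ℕ) : ℝ) + b * E := by exact_mod_cast this
        linarith
      have k2 : 6 * (E : ℝ) ≤ (D : ℝ) ^ 3 + D := by exact_mod_cast hE
      have k3 : (D : ℝ) ≤ (D : ℝ) ^ 2 := by nlinarith
      have k4 : (b : ℝ) * (6 * E) ≤ b * ((D : ℝ) ^ 3 + (D : ℝ) ^ 2) :=
        mul_le_mul_of_nonneg_left (by linarith) hb0
      have k5 : 0 ≤ (b : ℝ) * (D : ℝ) ^ 2 := by positivity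
      unfold phi
      nlinarith
    · have k := pdet q n π a b h.1 (by omega) hq hn W hC D p hp w τ hw
      rw [← hEd] at k
      by_cases hc : w ≤ b * E
      · rw [Nat.sub_eq_zero_of_le hc, pow_zero]; exact one_dvd _
      · have e : w = b * E + (w - b * E) := by omega
        rw [e, pow_add] at k
        exact (mul_dvd_mul_iff_left (pow_ne_zero _ hπ)).1 k
  · have h36 : 36 * a ≤ b := by omega
    have h36' : 36 * (a : ℝ) ≤ b := by exact_mod_cast h36
    have k1 : √((a : ℝ) * b) ≤ (b : ℝ) / 6 :=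
      Real.sqrt_le_iff.2 ⟨by positivity, by nlinarith⟩
    refine ⟨0, fun _ => rfl, ?_, fun p _ => by rw [pow_zero]; exact one_dvd _⟩
    have k2 : phi a b * (D : ℝ) ^ 3 ≤ 0 :=
      mul_nonpos_of_nonpos_of_nonneg (by unfold phi; linarith) (by positivity)
    have k5 : 0 ≤ (b : ℝ) * (D : ℝ) ^ 2 := by positivity
    rw [Nat.cast_zero]
    nlinarith

end Pool.Agent.Lib.MP_9c5702_nt.QB
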