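import Pool.Agent.Lib.MP_9c5702_nt.QB.Defs
import Pool.Agent.Lib.MP_9c5702_nt.Q4.Apx
import Pool.Agent.Lib.MP_9c5702_nt.Q4.Det

/-! The affine chart of the surface modulo a prime. -/

set_option autoImplicit false

namespace Pool.Agent.Lib.MP_9c5702_nt.QB

open MvPolynomial Pool.Agent.Lib.MP_9c5702_nt.Q4

theorem schart (l : ℕ) (hl : l.Prime) (n : ℤ) (hn : ¬ (l : ℤ) ∣ 3 * n) (W : Finset V)
    (hF : ∀ P ∈ W, F P = n) (hp : Pw (Cong (l : ℤ)) W) : SChart (l : ℤ) W := by
  intro N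
  rcases W.eq_empty_or_nonempty with rfl | ⟨P0, hP0⟩
  · exact ⟨0, 0, fun P hP => absurd hP (Finset.notMem_empty P),
      fun k => ⟨0, fun P hP => absurd hP (Finset.notMem_empty P)⟩⟩
  have hpr : Prime (l : ℤ) := Nat.prime_iff_prime_int.1 hl
  obtain ⟨k0, hk0⟩ : ∃ k0, ¬ (l : ℤ) ∣ P0 k0 := by
    by_contra hc
    have h : ∀ k, (l : ℤ) ∣ P0 k := fun k => not_not.1 fun h => hc ⟨k, h⟩
    refine hn (Dvd.dvd.mul_left ?_ 3)
    rw [← hF P0 hP0]
    exact dvd_add (dvd_add (dvd_pow (h 0) (by omega)) (dvd_pow (h 1) (by omega)))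
      (dvd_pow (h 2) (by omega))
  have hco : IsCoprime (3 * P0 k0 ^ 2) (l : ℤ) := by
    refine ((hpr.irreducible.coprime_iff_not_dvd).2 fun h => ?_).symm
    rcases hpr.dvd_or_dvd h with h | h
    · exact hn (h.mul_right n)
    · exact hk0 (hpr.dvd_of_dvd_pow h)
  obtain ⟨i, j, hij, hik, hjk⟩ := other_two k0
  obtain ⟨z, hz⟩ : ∃ z : V → V, ∀ P k, z P k = P k - P0 k := ⟨fun P => P - P0, fun _ _ => rfl⟩
  have hdz : ∀ k, ∀ P ∈ W, (l : ℤ) ∣ z P k := fun k P hP => hz P k ▸ hp P hP P0 hP0 k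
  have key : ∀ m, 1 ≤ m → ∀ k, Apx (l : ℤ) m W (fun P => z P i) (fun P => z P j)
      (fun P => z P k) := by
    intro m hm
    induction m, hm using Nat.le_induction with
    | base => exact fun k => apx_of_dvd fun P hP => by rw [pow_one]; exact hdz k P hP
    | succ m hm ih =>
      intro k
      have hk : k = i ∨ k = j ∨ k = k0 :=
        (by decide : ∀ i j k m : Fin 3, i ≠ j → i ≠ k → j ≠ k → m = i ∨ m = j ∨ m = k) i j k0 k
          hij hik hjk
      rcases hk with rfl | rfl | rfl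
      · exact apx_u
      · exact apx_t
      have s2 := fun j => (ih j).mul_succ hm (ih j) (hdz j) (hdz j)
      have s3 := fun j => (ih j).mul_succ hm ((ih j).mul (ih j)) (hdz j)
        fun P hP => (hdz j P hP).mul_right _
      have a1 := ((apx_const 3).mul ((((apx_const (P0 i)).mul (s2 i)).add
        ((apx_const (P0 j)).mul (s2 j))).add ((apx_const (P0 k)).mul (s2 k)))).add
        (((s3 i).add (s3 j)).add (s3 k))
      have a3 := (((apx_const (-3 * P0 i ^ 2)).mul apx_u).add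
        ((apx_const (-3 * P0 j ^ 2)).mul apx_t)).sub a1
      refine Apx.cancel hco (a3.congr fun P hP => ⟨0, ?_⟩)
      have f1 := (F_perm P hij hik hjk).symm.trans (hF P hP)
      have f0 := (F_perm P0 hij hik hjk).symm.trans (hF P0 hP0)
      simp only [hz]
      linear_combination f1 - f0
  refine ⟨fun P => z P i, fun P => z P j, fun P hP => ⟨hdz i P hP, hdz j P hP⟩, fun k => ?_⟩
  refine ((apx_const (P0 k)).add ((key (N + 1) (by omega) k).mono (Nat.le_succ N))).congr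
    fun P hP => ?_
  rw [hz, add_sub_cancel, sub_self]
  exact dvd_zero _

theorem sdet (π : ℤ) (W : Finset V) (hC : SChart π W) (D : ℕ) (p : Low D → V)
    (hp : ∀ i, p i ∈ W) (w τ : ℕ)
    (hw : w + ∑ k ∈ Finset.Icc 1 τ, Nb 1 k ≤ τ * (Low D).card) : π ^ w ∣ (lowM D p).det := by
  obtain ⟨u, t, h1, h2⟩ := hC w
  choose g hg using fun r : Low D => apx_eval (monP r.1) (fun P => P) h2
  refine det_dvd π 1 le_rfl (fun i => u (p i)) (fun i => t (p i)) (fun _ => 1)
    (fun i => (h1 _ (hp i)).1) (fun i => by rw [pow_one]; exact (h1 _ (hp i)).2) w τ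
    (by rwa [Fintype.card_coe]) _ g fun r i => ?_
  have := hg r (p i) (hp i)
  simp only [eval_monP] at this
  rwa [one_mul]

end Pool.Agent.Lib.MP_9c5702_nt.QB
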