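import Pool.Agent.Lib.MP_9c5702_nt.QB.ChartK
import Pool.Agent.Lib.MP_9c5702_nt.QB.PDet
import Pool.Agent.Lib.MP_9c5702_nt.QB.SChart
import Pool.Agent.Lib.MP_9c5702_nt.QB.NormF
import Pool.Agent.Lib.MP_9c5702_nt.QB.FormN
import Pool.Agent.Lib.MP_9c5702_nt.Q4.Ker

/-! A form of bounded degree vanishes on a class. -/

set_option autoImplicit false

namespace Pool.Agent.Lib.MP_9c5702_nt.QB

open MvPolynomial Pool.Agent.Lib.MP_9c5702_nt.Q4

lemma form_mon_abs (B : ℕ) (r : I3) (P : V) (hP : ∀ k, 0 < P k ∧ P k ≤ B) :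
    |mon r P| ≤ ((B ^ dg r : ℕ) : ℤ) := by
  have h0 := hP 0
  have h1 := hP 1
  have h2 := hP 2
  rw [mon, abs_of_pos (mul_pos (mul_pos (pow_pos h0.1 _) (pow_pos h1.1 _)) (pow_pos h2.1 _)), dg,
    Nat.cast_pow, pow_add, pow_add]
  have hB : (0 : ℤ) ≤ B := Nat.cast_nonneg B
  exact mul_le_mul (mul_le_mul (pow_le_pow_left₀ h0.1.le h0.2 _) (pow_le_pow_left₀ h1.1.le h1.2 _)
    (pow_pos h1.1 _).le (pow_nonneg hB _)) (pow_le_pow_left₀ h2.1.le h2.2 _) (pow_pos h2.1 _).le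
    (mul_nonneg (pow_nonneg hB _) (pow_nonneg hB _))

theorem form_low (n B Y κ D l : ℕ) (S : Finset ℕ) (a β : ℕ → ℕ) (hA : Adm n S a β) (hn : 1 ≤ n)
    (hB : B ^ 3 ≤ n) (hnY : n ≤ Y ^ κ) (hD : D = 204 * κ + 5) (hY : (4 * D ^ 2) ^ 4 ≤ Y)
    (hlp : l.Prime) (hln : ¬ l ∣ 3 * n)
    (hl : max 0 (mu n S a β) + Real.log Y ≤ √3 * Real.log l) (W : Finset V)
    (hW : ∀ P ∈ W, P ∈ Sol n B) (hp : Pw (Crs (3 * (qq S a : ℤ))) W) (h3 : Pw (Cong 3) W)
    (hp' : Pw (Cong (l : ℤ)) W) :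
    ∃ G : MvPolynomial (Fin 3) ℤ, G ≠ 0 ∧ G.IsHomogeneous (3 * D) ∧ ∀ P ∈ W, eval P G = 0 := by
  classical
  have hD1 : 1 ≤ D := by omega
  have hF : ∀ P ∈ W, F P = n := fun P hP => (hW P hP).2.1
  have hs := low_card D
  have hg : ∑ r ∈ Low D, dg r ≤ D ^ 3 + 2 * D ^ 2 := by
    have := low_deg D
    nlinarith
  have hcard : Fintype.card (Low D) = (Low D).card := Fintype.card_coe _
  have : Nonempty (Low D) := Fintype.card_pos_iff.1 (by omega)
  have hC := chartK n (qq S a) B ((dvd_pow_self _ (by norm_num)).trans hA.cube_dvd) W hW hp h3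
  have hv : ∀ p : ℕ, ∃ v : ℕ, p ∈ S → (β p = 0 → v = 0) ∧
      phi (a p) (β p) * (D : ℝ) ^ 3 - 201 * β p * (D : ℝ) ^ 2 ≤ v ∧
      ∀ x : Low D → V, (∀ i, x i ∈ W) → (p : ℤ) ^ v ∣ (lowM D x).det := by
    intro p
    by_cases hpS : p ∈ S
    · obtain ⟨v, h⟩ := pdiv (qq S a) n p (by exact_mod_cast (hA p hpS).1.ne_zero) (a p) (β p)
        (hA p hpS).2.1 (by exact_mod_cast Finset.dvd_prod_of_mem (fun p => p ^ a p) hpS)
        (by exact_mod_cast (hA p hpS).2.2) W hC D hD1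
      exact ⟨v, fun _ => h⟩
    · exact ⟨0, fun h => absurd h hpS⟩
  choose v hv using hv
  obtain ⟨w, τ, hw1, hw2⟩ := w11 D _ hD1 hs
  have hS := schart l hlp n (by exact_mod_cast hln) W hF hp'
  have hco : (∏ p ∈ S, p ^ v p).Coprime (l ^ w) := by
    refine Nat.Coprime.prod_left fun p hpS => ?_
    by_cases hpl : p = l
    · have h0 : β p = 0 := by
        by_contra h0
        have h1 : p ∣ n := (dvd_pow_self p h0).trans (hA p hpS).2.2
        exact hln ((hpl ▸ h1 : l ∣ n).mul_left 3)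
      rw [(hv p hpS).1 h0, pow_zero]
      exact Nat.coprime_one_left _
    · exact Nat.Coprime.pow _ _ ((Nat.coprime_primes (hA p hpS).1 hlp).2 hpl)
  obtain ⟨c, hc0, hc⟩ := ker_of_det (ι := Low D) W (fun P r => mon r.1 P) fun x hx => by
    have d1 : (∏ p ∈ S, p ^ v p) ∣ (lowM D x).det.natAbs :=
      prod_pow_dvd (fun p hpS => (hA p hpS).1) fun p hpS =>
        Int.natCast_dvd.1 (by exact_mod_cast (hv p hpS).2.2 x hx)
    have d2 : l ^ w ∣ (lowM D x).det.natAbs :=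
      Int.natCast_dvd.1 (by exact_mod_cast sdet l W hS D x hx w τ hw1)
    refine Int.eq_zero_of_abs_lt_dvd (Int.natCast_dvd.2 (hco.mul_dvd_of_dvd_of_dvd d1 d2)) ?_
    refine lt_of_le_of_lt (det_le_rows _ (fun r : Low D => B ^ dg r.1) fun r i =>
      form_mon_abs B r.1 (x i) (hW _ (hx i)).1) ?_
    rw [Finset.prod_pow_eq_pow_sum, Finset.sum_coe_sort (Low D) dg, hcard]
    exact_mod_cast form_num n B Y κ D _ _ l w S a β v hA hn hB hnY hD hY hs hg hlp.one_le hl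
      (fun p hpS => (hv p hpS).2.1) hw2
  exact norm_form n (by exact_mod_cast (by omega : n ≠ 0)) D (by omega) W hF c hc0 hc

end Pool.Agent.Lib.MP_9c5702_nt.QB
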