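import Pool.Agent.Lib.MP_9c5702_nt.QB.Core
import Pool.Agent.Lib.MP_9c5702_nt.Q4.Tau

/-! The count of primitive solutions. -/

set_option autoImplicit false

namespace Pool.Agent.Lib.MP_9c5702_nt.QB

open Pool.Agent.Lib.MP_9c5702_nt.Q4

lemma core2_L1 (M y : ℝ) (hM : 0 ≤ M) (hy : 1 ≤ y) : ∃ L1 : ℕ, 1 ≤ L1 ∧
    M + Real.log y ≤ √3 * Real.log L1 ∧ (L1 : ℝ) ^ 2 ≤ 4 * Real.exp (2 / √3 * M) * y ^ 2 := by
  have h3 : (1 : ℝ) ≤ √3 := Real.one_le_sqrt.2 (by norm_num)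
  have h30 : (0 : ℝ) < √3 := by linarith
  have hl : 0 ≤ Real.log y := Real.log_nonneg hy
  set e : ℝ := Real.exp ((M + Real.log y) / √3) with he
  have he1 : 1 ≤ e := Real.one_le_exp (by positivity)
  have hle : e ≤ (⌈e⌉₊ : ℝ) := Nat.le_ceil e
  refine ⟨⌈e⌉₊, ?_, ?_, ?_⟩
  · exact_mod_cast he1.trans hle
  · have h1 : Real.log e ≤ Real.log (⌈e⌉₊ : ℝ) := Real.log_le_log (by linarith) hle
    rw [he, Real.log_exp, div_le_iff₀' h30] at h1
    exact h1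
  · have h1 : (⌈e⌉₊ : ℝ) ≤ 2 * e := by
      have := Nat.ceil_lt_add_one (show 0 ≤ e by linarith)
      linarith
    have h2 : e ^ 2 = Real.exp (2 / √3 * M) * Real.exp (2 / √3 * Real.log y) := by
      rw [he, ← Real.exp_add, sq, ← Real.exp_add]
      congr 1
      ring
    have h4 : Real.exp (2 / √3 * Real.log y) ≤ y ^ 2 := by
      have h5 : 2 / √3 * Real.log y ≤ Real.log y + Real.log y := by
        have : 2 / √3 ≤ (2 : ℝ) := div_le_self (by norm_num) h3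
        nlinarith
      refine (Real.exp_le_exp.2 h5).trans (le_of_eq ?_)
      rw [Real.exp_add, Real.exp_log (by linarith), sq]
    calc (⌈e⌉₊ : ℝ) ^ 2 ≤ (2 * e) ^ 2 := pow_le_pow_left₀ (by positivity) h1 2
      _ = 4 * Real.exp (2 / √3 * M) * Real.exp (2 / √3 * Real.log y) := by
          rw [mul_pow, h2]; ring
      _ ≤ _ := by gcongr

lemma core2_root {x : ℝ} (hx : 0 ≤ x) (k : ℕ) (hk : k ≠ 0) : (x ^ ((1 : ℝ) / k)) ^ k = x := by
  rw [one_div]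
  exact Real.rpow_inv_natCast_pow hx hk

theorem core2 (ε : ℝ) (hε : 0 < ε) : ∃ C : ℝ, 0 < C ∧ ∀ (n B : ℕ) (S : Finset ℕ) (a β : ℕ → ℕ),
    1 ≤ n → Adm n S a β → B ^ 3 ≤ n → ∀ W : Finset V, (∀ P ∈ W, P ∈ Sol n B) →
    (W.card : ℝ) ≤ C * (n : ℝ) ^ ε * Bd n S a β := by
  obtain ⟨δ, hδ, rfl⟩ : ∃ δ : ℝ, 0 < δ ∧ ε = 10 * δ := ⟨ε / 10, by positivity, by ring⟩
  obtain ⟨κ, hκ⟩ := exists_nat_ge (1 / δ)
  have hκ' : 1 ≤ δ * κ := by rwa [div_le_iff₀' hδ] at hκ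
  obtain ⟨C, Y0, hC⟩ := core κ
  obtain ⟨Cd, hCd1, hCd⟩ := divisor_bound (show 0 < δ / 60 by positivity)
  set E : ℝ := Cd * 4 ^ δ with hE
  have hE0 : 0 < E := by positivity
  refine ⟨16 * C * ((Y0 : ℝ) + 2) ^ 3 * (E + 1) ^ 7 + 1, by positivity, ?_⟩
  intro n B S a β hn hA hB W hW
  have hn1 : (1 : ℝ) ≤ n := by exact_mod_cast hn
  have hn0 : (0 : ℝ) < n := by linarith
  have hq1 : (1 : ℝ) ≤ qq S a := by exact_mod_cast hA.qq_pos
  have hq0 : (0 : ℝ) < qq S a := by linarith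
  obtain ⟨X, hX⟩ := hA.cube_dvd
  have hX' : n = X * qq S a ^ 3 := by rw [mul_comm]; exact hX
  have hXr : (n : ℝ) / (qq S a : ℝ) ^ 3 = X := by
    rw [div_eq_iff (by positivity)]
    exact_mod_cast hX'
  set Sx : ℝ := max (((n : ℝ) / (qq S a : ℝ) ^ 3) ^ ((1 : ℝ) / 6)) ((n : ℝ) ^ ((1 : ℝ) / 27))
    with hSx
  have hS1 : 1 ≤ Sx := (Real.one_le_rpow hn1 (by norm_num)).trans (le_max_right _ _)
  have hS6 : (X : ℝ) ≤ Sx ^ 6 := by
    have h1 := core2_root (x := (n : ℝ) / (qq S a : ℝ) ^ 3) (by positivity) 6 (by norm_num)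
    rw [← hXr, ← h1]
    refine pow_le_pow_left₀ (by positivity) ?_ 6
    rw [Nat.cast_ofNat]
    exact le_max_left _ _
  have hS27 : (n : ℝ) ≤ Sx ^ 27 := by
    have h1 := core2_root hn0.le 27 (by norm_num)
    refine h1.symm.le.trans (pow_le_pow_left₀ (by positivity) ?_ 27)
    exact_mod_cast le_max_right _ _
  set G : ℝ := Real.exp (2 / √3 * max 0 (mu n S a β)) with hG
  have hG0 : 0 < G := Real.exp_pos _
  have hBd : Bd n S a β = qq S a * G * Sx := rfl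
  rcases W.eq_empty_or_nonempty with rfl | ⟨P, hP⟩
  · simp only [Finset.card_empty, Nat.cast_zero, hBd]; positivity
  have hB1 : 1 ≤ B := by
    have h1 := ((hW P hP).1 0).1
    have h2 := ((hW P hP).1 0).2
    omega
  set Z : ℝ := (n : ℝ) ^ δ with hZ
  have hZ1 : 1 ≤ Z := Real.one_le_rpow hn1 hδ.le
  set Y : ℕ := Y0 + ⌈Z⌉₊ with hY
  have hY0 : (0 : ℝ) ≤ Y0 := Nat.cast_nonneg _
  have hYZ : Z ≤ Y := by
    rw [hY]; push_cast; linarith [Nat.le_ceil Z]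
  have hYle : (Y : ℝ) ≤ (Y0 + 2) * Z := by
    rw [hY]; push_cast
    have := Nat.ceil_lt_add_one (show 0 ≤ Z by linarith)
    nlinarith
  have hY1 : (1 : ℝ) ≤ Y := hZ1.trans hYZ
  have hnY : n ≤ Y ^ κ := by
    have h1 : (n : ℝ) ≤ Z ^ κ := by
      rw [hZ, ← Real.rpow_natCast, ← Real.rpow_mul hn0.le]
      exact Real.self_le_rpow_of_one_le hn1 hκ'
    have h2 : Z ^ κ ≤ (Y : ℝ) ^ κ := pow_le_pow_left₀ (by linarith) hYZ κ
    exact_mod_cast h1.trans h2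
  set T : ℕ := ⌈E * Z⌉₊ with hT
  have hTle : (T : ℝ) ≤ (E + 1) * Z := by
    have := Nat.ceil_lt_add_one (show 0 ≤ E * Z by positivity)
    rw [hT]; nlinarith
  have hTB : TB n T := by
    intro R hR1 hR
    have h1 : (R : ℝ) ≤ (4 * (n : ℝ)) ^ 60 := by exact_mod_cast hR
    have h2 : (R : ℝ) ^ (δ / 60) ≤ 4 ^ δ * Z := by
      refine (Real.rpow_le_rpow (Nat.cast_nonneg _) h1 (by positivity)).trans (le_of_eq ?_)
      rw [← Real.rpow_natCast, ← Real.rpow_mul (by positivity), hZ,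
        ← Real.mul_rpow (by norm_num) hn0.le]
      congr 1
      push_cast
      ring
    have h4 : (R.divisors.card : ℝ) ≤ E * Z := by
      refine (hCd R (by omega)).trans ?_
      rw [hE, mul_assoc]
      exact mul_le_mul_of_nonneg_left h2 (by linarith)
    exact_mod_cast h4.trans (Nat.le_ceil _)
  obtain ⟨L1, hL1a, hL1b, hL1c⟩ := core2_L1 (max 0 (mu n S a β)) Y (le_max_left _ _) hY1
  set L : ℕ := ⌈3 * Sx * Y⌉₊ with hL
  have hSY : 1 ≤ Sx * Y := one_le_mul_of_one_le_of_one_le hS1 hY1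
  have hLle : (L : ℝ) ≤ 4 * Sx * Y := by
    have := Nat.ceil_lt_add_one (show 0 ≤ 3 * Sx * Y by positivity)
    rw [hL]; nlinarith
  have hL6 : 256 * X * Y ^ 3 ≤ L ^ 6 := by
    have h1 : (3 * Sx * Y) ^ 6 ≤ (L : ℝ) ^ 6 := pow_le_pow_left₀ (by positivity) (Nat.le_ceil _) 6
    have h2 : (Y : ℝ) ^ 3 ≤ (Y : ℝ) ^ 6 := pow_le_pow_right₀ hY1 (by norm_num)
    have h4 : 256 * (X : ℝ) * (Y : ℝ) ^ 3 ≤ (3 * Sx * Y) ^ 6 := by
      rw [mul_pow, mul_pow]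
      gcongr
      norm_num
    exact_mod_cast h4.trans h1
  have hL27 : 4000 ^ 3 * n * Y ^ 9 ≤ L ^ 27 := by
    have h1 : (3 * Sx * Y) ^ 27 ≤ (L : ℝ) ^ 27 :=
      pow_le_pow_left₀ (by positivity) (Nat.le_ceil _) 27
    have h2 : (Y : ℝ) ^ 9 ≤ (Y : ℝ) ^ 27 := pow_le_pow_right₀ hY1 (by norm_num)
    have h4 : 4000 ^ 3 * (n : ℝ) * (Y : ℝ) ^ 9 ≤ (3 * Sx * Y) ^ 27 := by
      rw [mul_pow, mul_pow]
      gcongr
      norm_num
    exact_mod_cast h4.trans h1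
  have hmain := hC n X B Y T L L1 S a β hA hX' hB1 hB (Nat.le_add_right _ _) hnY hTB hL1a hL1b hL6
    hL27 W hW
  have h1 : (W.card : ℝ) ≤ C * qq S a * (L1 : ℝ) ^ 2 * L * (T : ℝ) ^ 7 := by exact_mod_cast hmain
  have h4 : (n : ℝ) ^ (10 * δ) = Z ^ 10 := by
    rw [hZ, ← Real.rpow_natCast, ← Real.rpow_mul hn0.le]
    congr 1
    push_cast
    ring
  rw [h4, hBd]
  calc (W.card : ℝ) ≤ C * qq S a * (4 * G * ((Y0 + 2) * Z) ^ 2) * (4 * Sx * ((Y0 + 2) * Z)) *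
        ((E + 1) * Z) ^ 7 := by
        refine h1.trans ?_
        gcongr
        · exact hL1c.trans (by gcongr)
        · exact hLle.trans (by gcongr)
    _ = 16 * C * ((Y0 : ℝ) + 2) ^ 3 * (E + 1) ^ 7 * Z ^ 10 * (qq S a * G * Sx) := by ring
    _ ≤ _ := by
        gcongr
        linarith

end Pool.Agent.Lib.MP_9c5702_nt.QB
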