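import Pool.Agent.Lib.MP_9c5702_nt.QB.Defs

/-! Divisibility of a determinant with three families of rows. -/

set_option autoImplicit false

namespace Pool.Agent.Lib.MP_9c5702_nt.QB

open MvPolynomial Pool.Agent.Lib.MP_9c5702_nt.Q4

lemma det3_count {ι : Type} [Fintype ι] (a b : ℕ) (ha : 1 ≤ a) (hb : 1 ≤ b) (lab : ι → Fin 3)
    (φ : ι → (Fin 2 →₀ ℕ)) (hφ : Function.Injective fun r => (lab r, φ r)) (τ : ℕ) :
    τ * Fintype.card ι ≤
      ∑ r, (a * φ r 0 + b * φ r 1) + ∑ k ∈ Finset.Icc 1 τ, 3 * Nab a b k := by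
  classical
  have h1 : ∀ k, (Finset.univ.filter fun r => a * φ r 0 + b * φ r 1 < k).card ≤
      3 * Nab a b k := by
    intro k
    have h0 : 3 * Nab a b k = ((Finset.univ : Finset (Fin 3)) ×ˢ
        ((Finset.range k ×ˢ Finset.range k).filter
          (fun p : ℕ × ℕ => a * p.1 + b * p.2 < k))).card := by
      rw [Finset.card_product, Finset.card_univ, Fintype.card_fin, Nab]
    rw [h0]
    refine Finset.card_le_card_of_injOn (fun r => (lab r, (φ r 0, φ r 1))) (fun r hr => ?_)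
      fun r _ r' _ h => hφ ?_
    · have h2 := (Finset.mem_filter.1 (Finset.mem_coe.1 hr)).2
      have h3 : φ r 1 ≤ b * φ r 1 := Nat.le_mul_of_pos_left _ hb
      have h4 : φ r 0 ≤ a * φ r 0 := Nat.le_mul_of_pos_left _ ha
      refine Finset.mem_coe.2 (Finset.mem_product.2 ⟨Finset.mem_univ _, Finset.mem_filter.2
        ⟨Finset.mem_product.2 ⟨Finset.mem_range.2 ?_, Finset.mem_range.2 ?_⟩, h2⟩⟩)
      · change φ r 0 < k
        omega
      · change φ r 1 < k
        omega
    · have h5 : lab r = lab r' := congrArg Prod.fst h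
      have h6 : (φ r 0, φ r 1) = (φ r' 0, φ r' 1) := congrArg Prod.snd h
      refine Prod.ext h5 ?_
      ext j
      fin_cases j
      · exact congrArg Prod.fst h6
      · exact congrArg Prod.snd h6
  have h2 : ∑ k ∈ Finset.Icc 1 τ,
      (Finset.univ.filter fun r => ¬ a * φ r 0 + b * φ r 1 < k).card ≤
      ∑ r, (a * φ r 0 + b * φ r 1) := by
    simp only [Finset.card_filter]
    rw [Finset.sum_comm]
    refine Finset.sum_le_sum fun r _ => ?_
    rw [← Finset.card_filter]
    refine (Finset.card_le_card (t := Finset.Icc 1 (a * φ r 0 + b * φ r 1))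
      fun k hk => ?_).trans ?_
    · rw [Finset.mem_filter, Finset.mem_Icc] at hk
      rw [Finset.mem_Icc]
      omega
    · rw [Nat.card_Icc]; omega
  have h3 : τ * Fintype.card ι = ∑ k ∈ Finset.Icc 1 τ,
      ((Finset.univ.filter fun r => a * φ r 0 + b * φ r 1 < k).card +
        (Finset.univ.filter fun r => ¬ a * φ r 0 + b * φ r 1 < k).card) := by
    simp only [Finset.card_filter_add_card_filter_not, Finset.card_univ, Finset.sum_const,
      Nat.card_Icc, smul_eq_mul, Nat.add_sub_cancel]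
  rw [h3, Finset.sum_add_distrib, add_comm]
  exact Nat.add_le_add h2 (Finset.sum_le_sum fun k _ => h1 k)

lemma det3_mono {ι : Type} [Fintype ι] [DecidableEq ι] (π : ℤ) (a b : ℕ) (ha : 1 ≤ a)
    (hb : 1 ≤ b) (u t : ι → ℤ) (c : Fin 3 → ι → ℤ) (lab : ι → Fin 3) (hu : ∀ i, π ^ a ∣ u i)
    (ht : ∀ i, π ^ b ∣ t i) (w τ : ℕ)
    (hw : w + ∑ k ∈ Finset.Icc 1 τ, 3 * Nab a b k ≤ τ * Fintype.card ι)
    (φ : ι → (Fin 2 →₀ ℕ)) :
    π ^ w ∣ (Matrix.of fun r i => c (lab r) i * (u i ^ φ r 0 * t i ^ φ r 1)).det := by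
  by_cases hφ : Function.Injective fun r => (lab r, φ r)
  · choose u' hu' using hu
    choose t' ht' using ht
    have h1 : (Matrix.of fun r i => c (lab r) i * (u i ^ φ r 0 * t i ^ φ r 1)) =
        Matrix.of fun r i => π ^ (a * φ r 0 + b * φ r 1) *
          (Matrix.of fun r i => c (lab r) i * (u' i ^ φ r 0 * t' i ^ φ r 1)) r i := by
      ext r i
      simp only [Matrix.of_apply]
      rw [hu' i, ht' i, mul_pow, mul_pow, pow_add, pow_mul, pow_mul]
      ring
    rw [h1, Matrix.det_mul_column, Finset.prod_pow_eq_pow_sum]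
    have h2 := det3_count a b ha hb lab φ hφ τ
    exact (pow_dvd_pow π (by omega)).mul_right _
  · obtain ⟨r, r', h1, h2⟩ := Function.not_injective_iff.1 hφ
    have h3 : lab r = lab r' := congrArg Prod.fst h1
    have h4 : φ r = φ r' := congrArg Prod.snd h1
    rw [Matrix.det_zero_of_row_eq h2 (by funext i; simp only [Matrix.of_apply, h3, h4])]
    exact dvd_zero _

theorem det3 {ι : Type} [Fintype ι] [DecidableEq ι] (π : ℤ) (a b : ℕ) (ha : 1 ≤ a) (hb : 1 ≤ b)
    (u t : ι → ℤ) (c : Fin 3 → ι → ℤ) (lab : ι → Fin 3) (hu : ∀ i, π ^ a ∣ u i)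
    (ht : ∀ i, π ^ b ∣ t i) (w τ : ℕ)
    (hw : w + ∑ k ∈ Finset.Icc 1 τ, 3 * Nab a b k ≤ τ * Fintype.card ι) (A : Matrix ι ι ℤ)
    (g : ι → MvPolynomial (Fin 2) ℤ)
    (hA : ∀ r i, π ^ w ∣ A r i - c (lab r) i * eval ![u i, t i] (g r)) : π ^ w ∣ A.det := by
  have hB : π ^ w ∣ (Matrix.of fun r i => c (lab r) i * eval ![u i, t i] (g r)).det := by
    have h1 : (Matrix.of fun r i => c (lab r) i * eval ![u i, t i] (g r)) = fun r =>
        ∑ m ∈ (g r).support,
          coeff m (g r) • fun i => c (lab r) i * (u i ^ m 0 * t i ^ m 1) := by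
      funext r i
      rw [Matrix.of_apply, eval_eq', Finset.sum_apply, Finset.mul_sum]
      refine Finset.sum_congr rfl fun m _ => ?_
      simp only [Fin.prod_univ_two, Matrix.cons_val_zero, Matrix.cons_val_one, Pi.smul_apply,
        smul_eq_mul]
      ring
    have h2 := (Matrix.detRowAlternating (n := ι) (R := ℤ)).toMultilinearMap.map_sum_finset
      (fun r (m : Fin 2 →₀ ℕ) =>
        coeff m (g r) • fun i => c (lab r) i * (u i ^ m 0 * t i ^ m 1))
      (fun r => (g r).support)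
    rw [h1]
    refine Dvd.dvd.trans ?_ (dvd_of_eq h2.symm)
    refine Finset.dvd_sum fun φ _ => ?_
    rw [MultilinearMap.map_smul_univ, smul_eq_mul]
    exact (det3_mono π a b ha hb u t c lab hu ht w τ hw φ).mul_left _
  have h3 : (Ideal.Quotient.mk (Ideal.span {π ^ w})).mapMatrix A =
      (Ideal.Quotient.mk (Ideal.span {π ^ w})).mapMatrix
        (Matrix.of fun r i => c (lab r) i * eval ![u i, t i] (g r)) := by
    ext r i
    exact Ideal.Quotient.eq.2 (Ideal.mem_span_singleton.2 (hA r i))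
  rw [← Ideal.mem_span_singleton, ← Ideal.Quotient.eq_zero_iff_mem, RingHom.map_det, h3,
    ← RingHom.map_det, Ideal.Quotient.eq_zero_iff_mem, Ideal.mem_span_singleton]
  exact hB

end Pool.Agent.Lib.MP_9c5702_nt.QB
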