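import Pool.Agent.Lib.MP_9c5702_nt.QB.Phi

/-! Removing a cube does not increase the bound. -/

set_option autoImplicit false

namespace Pool.Agent.Lib.MP_9c5702_nt.QB

open Pool.Agent.Lib.MP_9c5702_nt.Q4

lemma red_exp_le {n d m p b : ℕ} (hd : 1 ≤ d) (hm : 1 ≤ m) (h : n = d ^ 3 * m) (hp : p.Prime)
    (hb : p ^ b ∣ n) : b ≤ m.factorization p + 3 * d.factorization p := by
  have hd0 : d ≠ 0 := by omega
  have hm0 : m ≠ 0 := by omega
  have hn0 : n ≠ 0 := by rw [h]; positivity
  have h1 := (hp.pow_dvd_iff_le_factorization hn0).1 hb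
  rw [h, Nat.factorization_mul (pow_ne_zero 3 hd0) hm0, Nat.factorization_pow] at h1
  simp only [Finsupp.add_apply, Finsupp.smul_apply, smul_eq_mul] at h1
  omega

lemma red_first {q q' x x' : ℝ} (hq' : 0 < q') (hqq : q' ≤ q)
    (hx : x' ≤ x + √3 / 2 * (Real.log q - Real.log q')) :
    q' * Real.exp (2 / √3 * max 0 x') ≤ q * Real.exp (2 / √3 * max 0 x) := by
  have hq : 0 < q := lt_of_lt_of_le hq' hqq
  have h3 : (0 : ℝ) < √3 := by positivity
  have hL : 0 ≤ Real.log q - Real.log q' := sub_nonneg.2 (Real.log_le_log hq' hqq)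
  have hc : 0 ≤ √3 / 2 * (Real.log q - Real.log q') := by positivity
  have h1 : max 0 x' ≤ max 0 x + √3 / 2 * (Real.log q - Real.log q') :=
    max_le (add_nonneg (le_max_left _ _) hc) (hx.trans (by linarith [le_max_right 0 x]))
  have h2 : 2 / √3 * max 0 x' ≤ 2 / √3 * max 0 x + (Real.log q - Real.log q') := by
    have h4 : 2 / √3 * (√3 / 2 * (Real.log q - Real.log q')) = Real.log q - Real.log q' := by
      field_simp
    have h5 := mul_le_mul_of_nonneg_left h1 (show (0 : ℝ) ≤ 2 / √3 by positivity)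
    rw [mul_add, h4] at h5
    exact h5
  have h6 : q' * Real.exp (2 / √3 * max 0 x + (Real.log q - Real.log q')) =
      q * Real.exp (2 / √3 * max 0 x) := by
    rw [Real.exp_add, Real.exp_sub, Real.exp_log hq, Real.exp_log hq']
    field_simp
  rw [← h6]
  exact mul_le_mul_of_nonneg_left (Real.exp_le_exp.2 h2) hq'.le

theorem red_step (n d m : ℕ) (hd : 1 ≤ d) (hm : 1 ≤ m) (h : n = d ^ 3 * m) (S : Finset ℕ)
    (a β : ℕ → ℕ) (hA : Adm n S a β) :
    ∃ a' β' : ℕ → ℕ, Adm m S a' β' ∧ Bd m S a' β' ≤ Bd n S a β := by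
  have hd0 : d ≠ 0 := by omega
  have hm0 : m ≠ 0 := by omega
  have hS : ∀ p ∈ S, p.Prime := fun p hp => (hA p hp).1
  have hβ : ∀ p ∈ S, β p ≤ m.factorization p + 3 * d.factorization p := fun p hp =>
    red_exp_le hd hm h (hS p hp) (hA p hp).2.2
  set a' : ℕ → ℕ := fun p => min (a p) (m.factorization p / 3) with ha'
  set β' : ℕ → ℕ := fun p => min (β p) (m.factorization p) with hβ'
  have hA' : Adm m S a' β' := by
    intro p hp
    refine ⟨hS p hp, ?_, ?_⟩
    · have := (hA p hp).2.1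
      simp only [ha', hβ']
      omega
    · exact ((hS p hp).pow_dvd_iff_le_factorization hm0).2 (min_le_right _ _)
  refine ⟨a', β', hA', ?_⟩
  have hδ : (∏ p ∈ S, p ^ d.factorization p) ≤ d :=
    Nat.le_of_dvd hd (prod_pow_dvd hS fun p hp =>
      ((hS p hp).pow_dvd_iff_le_factorization hd0).2 le_rfl)
  have hδ0 : 0 < ∏ p ∈ S, p ^ d.factorization p :=
    Finset.prod_pos fun p hp => pow_pos (hS p hp).pos _
  have hq'q : qq S a' ≤ qq S a :=
    Finset.prod_le_prod' fun p hp => Nat.pow_le_pow_right (hS p hp).pos (min_le_left _ _)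
  have hqd : qq S a ≤ d * qq S a' := by
    refine le_trans ?_ (Nat.mul_le_mul_right _ hδ)
    rw [qq, qq, ← Finset.prod_mul_distrib]
    refine Finset.prod_le_prod' fun p hp => ?_
    rw [← pow_add]
    refine Nat.pow_le_pow_right (hS p hp).pos ?_
    have h1 := (hA p hp).2.1
    have h2 := hβ p hp
    simp only [ha']
    omega
  have hq' : (0 : ℝ) < qq S a' := by exact_mod_cast hA'.qq_pos
  have hq : (0 : ℝ) < qq S a := by exact_mod_cast hA.qq_pos
  have hdR : (1 : ℝ) ≤ d := by exact_mod_cast hd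
  have hmR : (1 : ℝ) ≤ m := by exact_mod_cast hm
  have hnR : (n : ℝ) = (d : ℝ) ^ 3 * m := by rw [h]; push_cast; ring
  have hlogδ : ∑ p ∈ S, (d.factorization p : ℝ) * Real.log p ≤ Real.log d := by
    rw [← log_prod_pow _ hS]
    exact Real.log_le_log (by exact_mod_cast hδ0) (by exact_mod_cast hδ)
  have hlogn : Real.log n = 3 * Real.log d + Real.log m := by
    rw [hnR, Real.log_mul (by positivity) (by positivity), Real.log_pow]
    push_cast
    ring
  have hsum : ∑ p ∈ S, phi (a p) (β p) * Real.log p - ∑ p ∈ S, phi (a' p) (β' p) * Real.log p ≤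
      ∑ p ∈ S, (d.factorization p : ℝ) * Real.log p +
        √3 / 2 * (∑ p ∈ S, (a p : ℝ) * Real.log p - ∑ p ∈ S, (a' p : ℝ) * Real.log p) := by
    rw [← Finset.sum_sub_distrib, ← Finset.sum_sub_distrib, Finset.mul_sum,
      ← Finset.sum_add_distrib]
    refine Finset.sum_le_sum fun p hp => ?_
    have h1 := phi_step (a p) (β p) (m.factorization p) (d.factorization p) (hA p hp).2.1 (hβ p hp)
    have h2 : 0 ≤ Real.log p := Real.log_natCast_nonneg p
    have h3 := mul_le_mul_of_nonneg_right h1 h2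
    simp only [ha', hβ']
    linarith
  have hmu : mu m S a' β' ≤
      mu n S a β + √3 / 2 * (Real.log (qq S a) - Real.log (qq S a')) := by
    rw [mu, mu, qq, qq, log_prod_pow _ hS, log_prod_pow _ hS, hlogn]
    linarith
  have hfirst := red_first hq' (by exact_mod_cast hq'q) hmu
  have hdiv : (m : ℝ) / (qq S a' : ℝ) ^ 3 ≤ (n : ℝ) / (qq S a : ℝ) ^ 3 := by
    rw [div_le_div_iff₀ (by positivity) (by positivity), hnR]
    have h1 : (qq S a : ℝ) ≤ d * qq S a' := by exact_mod_cast hqd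
    have h2 : (qq S a : ℝ) ^ 3 ≤ (d * qq S a') ^ 3 := pow_le_pow_left₀ hq.le h1 3
    calc (m : ℝ) * (qq S a : ℝ) ^ 3 ≤ m * (d * qq S a') ^ 3 :=
          mul_le_mul_of_nonneg_left h2 (by positivity)
      _ = (d : ℝ) ^ 3 * m * (qq S a' : ℝ) ^ 3 := by ring
  have hmn : (m : ℝ) ≤ n := by
    rw [hnR]
    exact le_mul_of_one_le_left (by positivity) (one_le_pow₀ hdR)
  rw [Bd, Bd]
  refine mul_le_mul hfirst (max_le_max ?_ ?_) (le_max_of_le_right (by positivity)) (by positivity)
  · exact Real.rpow_le_rpow (by positivity) hdiv (by norm_num)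
  · exact Real.rpow_le_rpow (by positivity) hmn (by norm_num)

end Pool.Agent.Lib.MP_9c5702_nt.QB
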