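import Pool.Agent.Lib.MP_9c5702_nt.QB.Defs
import Pool.Agent.Lib.MP_9c5702_nt.Q4.QChart
import Pool.Agent.Lib.MP_9c5702_nt.Q4.L1Chart

/-! The chart on a class modulo `3 q`. -/

set_option autoImplicit false

namespace Pool.Agent.Lib.MP_9c5702_nt.QB

open MvPolynomial Pool.Agent.Lib.MP_9c5702_nt.Q4

lemma chartk_pt (n q N : ℕ) (e P0 P : V) (he : dot e P0 = 1) (h0 : F P0 = n) (hF : F P = n)
    (hP : Prim P) (hc : Crs (3 * (q : ℤ)) P P0) (h3 : Cong 3 P P0) :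
    ∃ z : V, ∃ κ l' : ℤ, (∀ k, (q : ℤ) ∣ z k) ∧ (q : ℤ) ^ (N + 1) ∣ dot e z ∧
      qchartT P0 z = n * κ ∧ (q : ℤ) ^ N ∣ dot e P * l' - 1 ∧ l' ^ 3 = 9 * κ + 1 ∧
      ∀ k, (q : ℤ) ^ N ∣ P k - dot e P * (P0 k + 3 * z k) := by
  obtain ⟨e', he'⟩ := hP
  have hb := crs_base hc he
  obtain ⟨l, hl⟩ : ∃ l, l = dot e P := ⟨_, rfl⟩
  rw [← hl] at hb ⊢
  have hco : IsCoprime l (3 * (q : ℤ)) := by
    obtain ⟨x0, hx0⟩ := hb 0
    obtain ⟨x1, hx1⟩ := hb 1
    obtain ⟨x2, hx2⟩ := hb 2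
    refine ⟨dot e' P0, e' 0 * x0 + e' 1 * x1 + e' 2 * x2, ?_⟩
    unfold dot at he' ⊢
    linear_combination he' - e' 0 * hx0 - e' 1 * hx1 - e' 2 * hx2
  obtain ⟨l', y, hy⟩ := hco.pow_right (n := N + 1)
  have hz : ∀ k, ∃ w : ℤ, l' * P k - P0 k = 3 * (q * w) := by
    intro k
    obtain ⟨x, hx⟩ := hb k
    refine ⟨l' * x - y * (3 * q) ^ N * P0 k, ?_⟩
    linear_combination l' * hx + P0 k * hy
  choose w hw using hz
  obtain ⟨v, hv⟩ : ∃ v : ℤ, l' = 1 + 3 * v := by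
    obtain ⟨x0, hx0⟩ := h3 0
    obtain ⟨x1, hx1⟩ := h3 1
    obtain ⟨x2, hx2⟩ := h3 2
    refine ⟨-(l' * (e 0 * x0 + e 1 * x1 + e 2 * x2)) - y * q * (3 * q) ^ N, ?_⟩
    unfold dot at he hl
    linear_combination hy - l' * hl - l' * he - l' * e 0 * hx0 - l' * e 1 * hx1 - l' * e 2 * hx2
  have hk : l' ^ 3 = 9 * (v + 3 * v ^ 2 + 3 * v ^ 3) + 1 := by rw [hv]; ring
  refine ⟨fun k => q * w k, v + 3 * v ^ 2 + 3 * v ^ 3, l', fun k => dvd_mul_right _ _,
    ⟨-(y * 3 ^ N), ?_⟩, ?_, ⟨-(y * 3 ^ (N + 1) * q), ?_⟩, hk, fun k => ?_⟩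
  · refine mul_left_cancel₀ (by norm_num : (3 : ℤ) ≠ 0) ?_
    unfold dot at he hl ⊢
    linear_combination hy - he - l' * hl - e 0 * hw 0 - e 1 * hw 1 - e 2 * hw 2
  · refine mul_left_cancel₀ (by norm_num : (9 : ℤ) ≠ 0) ?_
    have e0 : l' * P 0 = P0 0 + 3 * (q * w 0) := by linear_combination hw 0
    have e1 : l' * P 1 = P0 1 + 3 * (q * w 1) := by linear_combination hw 1
    have e2 : l' * P 2 = P0 2 + 3 * (q * w 2) := by linear_combination hw 2
    have h4 : (l' * P 0) ^ 3 + (l' * P 1) ^ 3 + (l' * P 2) ^ 3 = l' ^ 3 * n := by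
      unfold F at hF
      linear_combination l' ^ 3 * hF
    rw [e0, e1, e2, hk] at h4
    unfold F at h0
    unfold qchartT
    linear_combination h4 - h0
  · linear_combination hy
  · refine ⟨y * 3 ^ (N + 1) * q * P k, ?_⟩
    linear_combination l * hw k - P k * hy

lemma chartk_drop (M u t : ℤ) (h : M ∣ t) (g : MvPolynomial (Fin 2) ℤ) :
    M ∣ eval ![u, t] g - eval ![u, 0] g := by
  induction g using MvPolynomial.induction_on with
  | C a => simp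
  | add p p' hp hp' =>
    have e : eval ![u, t] (p + p') - eval ![u, 0] (p + p') =
        (eval ![u, t] p - eval ![u, 0] p) + (eval ![u, t] p' - eval ![u, 0] p') := by
      rw [map_add, map_add]; ring
    rw [e]
    exact dvd_add hp hp'
  | mul_X p n hp =>
    have hn : n = 0 ∨ n = 1 := by revert n; decide
    rcases hn with rfl | rfl
    · have e : eval ![u, t] (p * X 0) - eval ![u, 0] (p * X 0) =
          (eval ![u, t] p - eval ![u, 0] p) * u := by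
        rw [map_mul, map_mul, eval_X, eval_X, Matrix.cons_val_zero, Matrix.cons_val_zero]; ring
      rw [e]
      exact hp.mul_right _
    · have e : eval ![u, t] (p * X 1) - eval ![u, 0] (p * X 1) = eval ![u, t] p * t := by
        rw [map_mul, map_mul, eval_X, eval_X, Matrix.cons_val_one, Matrix.cons_val_zero,
          Matrix.cons_val_one, Matrix.cons_val_zero]; ring
      rw [e]
      exact h.mul_left _

theorem chartK (n q B : ℕ) (hn : q ∣ n) (W : Finset V) (hW : ∀ P ∈ W, P ∈ Sol n B)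
    (hp : Pw (Crs (3 * (q : ℤ))) W) (h3 : Pw (Cong 3) W) : ChartK (q : ℤ) (n : ℤ) W := by
  intro N
  rcases W.eq_empty_or_nonempty with rfl | ⟨P0, hP0⟩
  · exact ⟨0, 0, 0, 0, 0, fun P hP => absurd hP (Finset.notMem_empty P),
      fun k => ⟨0, fun P hP => absurd hP (Finset.notMem_empty P)⟩⟩
  obtain ⟨-, h0, e, he⟩ := hW P0 hP0
  obtain ⟨U, hU⟩ := qchart_U e P0 he
  have hz : ∀ P : V, ∃ z : V, ∃ κ l' : ℤ, P ∈ W → (∀ k, (q : ℤ) ∣ z k) ∧
      (q : ℤ) ^ (N + 1) ∣ dot e z ∧ qchartT P0 z = n * κ ∧ (q : ℤ) ^ N ∣ dot e P * l' - 1 ∧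
      l' ^ 3 = 9 * κ + 1 ∧ ∀ k, (q : ℤ) ^ N ∣ P k - dot e P * (P0 k + 3 * z k) := by
    intro P
    by_cases hP : P ∈ W
    · obtain ⟨z, κ, l', hz⟩ := chartk_pt n q N e P0 P he h0 (hW P hP).2.1 (hW P hP).2.2
        (hp P hP P0 hP0) (h3 P hP P0 hP0)
      exact ⟨z, κ, l', fun _ => hz⟩
    · exact ⟨0, 0, 0, fun h => absurd h hP⟩
  choose z κ l' hz using hz
  obtain ⟨N0, hN0⟩ : ∃ N0 : V, ∀ k, N0 k = P0 k ^ 2 := ⟨fun k => P0 k ^ 2, fun _ => rfl⟩
  obtain ⟨ρ, hρ⟩ : ∃ ρ : V, ρ = crs P0 U := ⟨_, rfl⟩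
  have hco : IsCoprime (dl e N0 ρ) (q : ℤ) := by
    obtain ⟨a, ha⟩ := hn
    have hn' : (n : ℤ) = (q : ℤ) * a := by rw [ha]; push_cast; rfl
    refine ⟨1, dot e U * a, ?_⟩
    unfold F at h0
    simp only [hρ, dot, dl, crs_0, crs_1, crs_2, hN0] at he ⊢
    linear_combination (U 0 * P0 0 ^ 2 + U 1 * P0 1 ^ 2 + U 2 * P0 2 ^ 2) * he + hU -
      (e 0 * U 0 + e 1 * U 1 + e 2 * U 2) * (h0 + hn')
  have hd : ∀ k, ∀ P ∈ W, (q : ℤ) ∣ z P k := fun k P hP => (hz P hP).1 k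
  have key : ∀ m, 1 ≤ m → m ≤ N + 1 → ∀ k, Apx (q : ℤ) m W (fun P => dot ρ (z P))
      (fun P => qchartT P0 (z P)) (fun P => z P k) := by
    intro m hm
    induction m, hm using Nat.le_induction with
    | base => exact fun _ k => apx_of_dvd fun P hP => by rw [pow_one]; exact hd k P hP
    | succ m hm ih =>
      intro hle k
      have ih' := ih (by omega)
      have s2 := fun j => (ih' j).mul_succ hm (ih' j) (hd j) (hd j)
      have s3 := fun j => (ih' j).mul_succ hm ((ih' j).mul (ih' j)) (hd j)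
        fun P hP => (hd j P hP).mul_right _
      have a1 : Apx (q : ℤ) (m + 1) W (fun P => dot ρ (z P)) (fun P => qchartT P0 (z P))
          (fun P => dot e (z P)) :=
        apx_of_dvd fun P hP => (pow_dvd_pow _ hle).trans (hz P hP).2.1
      have a2 := (apx_t.sub ((apx_const 3).mul ((((apx_const (P0 0)).mul (s2 0)).add
        ((apx_const (P0 1)).mul (s2 1))).add ((apx_const (P0 2)).mul (s2 2))))).sub
        ((apx_const 3).mul (((s3 0).add (s3 1)).add (s3 2)))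
      have a3 := ((a1.mul (apx_const (crs N0 ρ k))).add (a2.mul (apx_const (crs ρ e k)))).add
        (apx_u.mul (apx_const (crs e N0 k)))
      refine Apx.cancel hco (a3.congr fun P hP => ?_)
      have h4 : dot N0 (z P) = P0 0 ^ 2 * z P 0 + P0 1 ^ 2 * z P 1 + P0 2 ^ 2 * z P 2 := by
        simp only [dot, hN0]
      rw [cramer, h4]
      refine (dvd_zero _).trans (dvd_of_eq (Eq.symm ?_))
      unfold qchartT
      ring
  refine ⟨fun P => dot ρ (z P), κ, fun P => dot e P, l', fun P k => P0 k + 3 * z P k,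
    fun P hP => ⟨?_, (hz P hP).2.2.2⟩, fun k => ?_⟩
  · exact dvd_add (dvd_add ((hd 0 P hP).mul_left _) ((hd 1 P hP).mul_left _))
      ((hd 2 P hP).mul_left _)
  · obtain ⟨g, hg⟩ := (apx_const (P0 k)).add ((apx_const 3).mul
      ((key (N + 1) (by omega) le_rfl k).mono (Nat.le_succ N)))
    refine ⟨g, fun P hP => ?_⟩
    have h5 := hg P hP
    simp only [(hz P hP).2.2.1] at h5
    exact h5

theorem q3K (q n : ℤ) (hn : q ^ 3 ∣ n) (W : Finset V) (h : ChartK q n W) : Q3 q W := by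
  obtain ⟨u, κ, c, c', Pt, h1, h2⟩ := h 3
  choose g hg using h2
  choose g0 g1 g2 hj using fun k => l1chart_jet q (g k)
  refine ⟨g0, g1, g2, fun P hP => ⟨c P, u P, (h1 P hP).1, fun k => ?_⟩⟩
  have e : P k - c P * (g0 k + u P * g1 k + u P ^ 2 * g2 k) = (P k - c P * Pt P k) +
      c P * ((Pt P k - eval ![u P, n * κ P] (g k)) +
        (eval ![u P, n * κ P] (g k) - eval ![u P, 0] (g k)) +
        (eval ![u P, 0] (g k) - (g0 k + u P * g1 k + u P ^ 2 * g2 k))) := by ring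
  rw [e]
  exact dvd_add ((h1 P hP).2.2.2 k)
    ((dvd_add (dvd_add (hg k P hP) (chartk_drop _ _ _ (hn.mul_right _) _))
      (hj k _ _ (h1 P hP).1 (dvd_zero _))).mul_left _)

end Pool.Agent.Lib.MP_9c5702_nt.QB
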