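import Pool.Agent.Lib.MP_9c5702_nt.QB.Plane
import Pool.Agent.Lib.MP_9c5702_nt.QB.Form
import Pool.Agent.Lib.MP_9c5702_nt.QB.SCov
import Pool.Agent.Lib.MP_9c5702_nt.Q4.Curve

/-! The count of primitive solutions with all parameters explicit. -/

set_option autoImplicit false

namespace Pool.Agent.Lib.MP_9c5702_nt.QB

open Pool.Agent.Lib.MP_9c5702_nt.Q4

private lemma core_lt {Y L K E R : ℕ} (hY : Y ≤ L ^ 2) (hR : R < Y ^ E) (hK : 2 * E ≤ K)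
    (hL : 1 ≤ L) : R < L ^ K :=
  calc R < Y ^ E := hR
    _ ≤ (L ^ 2) ^ E := Nat.pow_le_pow_left hY E
    _ = L ^ (2 * E) := by rw [← pow_mul]
    _ ≤ L ^ K := Nat.pow_le_pow_right hL hK

private lemma core_Hd {D B Y κ : ℕ} (hY : (D + 1) ^ 3 ≤ Y) (hB : B ≤ Y ^ κ) :
    Hd D B ≤ Y ^ ((κ * D + 1) * ((D + 1) ^ 3 + 2)) := by
  unfold Hd
  rw [pow_mul]
  refine Nat.pow_le_pow_left ?_ _
  calc (D + 1) ^ 3 * B ^ D ≤ Y * (Y ^ κ) ^ D := Nat.mul_le_mul hY (Nat.pow_le_pow_left hB D)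
    _ = Y ^ (κ * D + 1) := by rw [← pow_mul]; ring

private lemma core_log {Y L : ℕ} (hY : 1 ≤ Y) (hL : 1 ≤ L) {M : ℝ} (hM : 0 ≤ M)
    (h : M + Real.log Y ≤ √3 * Real.log L) : Y ≤ L ^ 2 := by
  have hY' : (0 : ℝ) < Y := by exact_mod_cast hY
  have hL' : (1 : ℝ) ≤ L := by exact_mod_cast hL
  have h1 : √3 ≤ (2 : ℝ) := Real.sqrt_le_iff.2 ⟨by norm_num, by norm_num⟩
  have h2 := Real.log_nonneg hL'
  have h3 : Real.log Y ≤ Real.log ((L : ℝ) ^ 2) := by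
    rw [Real.log_pow]
    push_cast
    nlinarith
  have h4 := (Real.log_le_log_iff hY' (by positivity)).1 h3
  exact_mod_cast h4

theorem core (κ : ℕ) : ∃ C Y0 : ℕ, ∀ (n X B Y T L L1 : ℕ) (S : Finset ℕ) (a β : ℕ → ℕ),
    Adm n S a β → n = X * qq S a ^ 3 → 1 ≤ B → B ^ 3 ≤ n → Y0 ≤ Y → n ≤ Y ^ κ → TB n T →
    1 ≤ L1 → max 0 (mu n S a β) + Real.log Y ≤ √3 * Real.log L1 → 256 * X * Y ^ 3 ≤ L ^ 6 →
    4000 ^ 3 * n * Y ^ 9 ≤ L ^ 27 → ∀ W : Finset V, (∀ P ∈ W, P ∈ Sol n B) →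
    W.card ≤ C * qq S a * L1 ^ 2 * L * T ^ 7 := by
  obtain ⟨D, hD⟩ : ∃ D, D = 204 * κ + 5 := ⟨_, rfl⟩
  obtain ⟨D3, hD3⟩ : ∃ D3, D3 = 3 * D := ⟨_, rfl⟩
  obtain ⟨E, hE⟩ : ∃ E, E = (κ * D3 + 1) * ((D3 + 1) ^ 3 + 2) + (κ + 1) := ⟨_, rfl⟩
  obtain ⟨K, hK⟩ : ∃ K, K = 2 * E := ⟨_, rfl⟩
  refine ⟨243 * (2 ^ K) ^ 2 * (D3 * (K * (6 * D3 * 2 ^ K * (36 * κ + 54)))),
    (6 * κ + 3) ^ 4 + (4 * D ^ 2) ^ 4 + (D3 + 1) ^ 3 + 4, ?_⟩
  intro n X B Y T L L1 S a β hA hn hB1 hB hY hnY hT hL1pos hL1 hL hL' W hW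
  have hpar : Par n B κ Y T := ⟨hB1, hB, hnY, by omega, hT⟩
  have hn1 := hpar.n1
  have hq := hA.qq_pos
  have hY4 : 4 ≤ Y := by omega
  have hX : 1 ≤ X := Nat.pos_of_ne_zero fun h0 => by simp [h0] at hn; omega
  have hYL : Y ≤ L ^ 2 := by
    have h1 : Y ^ 3 ≤ (L ^ 2) ^ 3 := by
      calc Y ^ 3 = 1 * Y ^ 3 := (one_mul _).symm
        _ ≤ 256 * X * Y ^ 3 := Nat.mul_le_mul_right _ (by omega)
        _ ≤ L ^ 6 := hL
        _ = (L ^ 2) ^ 3 := by ring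
    exact (Nat.pow_le_pow_iff_left (by norm_num)).1 h1
  have hYL1 : Y ≤ L1 ^ 2 := core_log (by omega) hL1pos (le_max_left _ _) hL1
  have hLpos : 1 ≤ L := by
    rcases Nat.eq_zero_or_pos L with rfl | h
    · simp at hYL; omega
    · exact h
  have hYκ : 1 ≤ Y ^ κ := Nat.one_le_pow _ _ (by omega)
  have h3n : 3 * n < Y ^ (κ + 1) := by
    rw [pow_succ]
    nlinarith
  have hbigL : 3 * n * Hd D3 B < L ^ K := by
    refine core_lt hYL ?_ hK.ge hLpos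
    have h1 := core_Hd (D := D3) (by omega : (D3 + 1) ^ 3 ≤ Y) hpar.BY
    have h2 : 0 < Y ^ ((κ * D3 + 1) * ((D3 + 1) ^ 3 + 2)) := Nat.pow_pos (by omega)
    calc 3 * n * Hd D3 B ≤ 3 * n * Y ^ ((κ * D3 + 1) * ((D3 + 1) ^ 3 + 2)) :=
          Nat.mul_le_mul_left _ h1
      _ < Y ^ (κ + 1) * Y ^ ((κ * D3 + 1) * ((D3 + 1) ^ 3 + 2)) :=
          Nat.mul_lt_mul_of_pos_right h3n h2
      _ = Y ^ E := by rw [hE, ← pow_add, add_comm]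
  have hnL1 : 3 * n < L1 ^ K := core_lt (E := κ + 1) hYL1 h3n (by omega) hL1pos
  obtain ⟨S1, hS1, hS1p⟩ := primes_list L1 K hL1pos
  obtain ⟨l1, hl1S, hl1q⟩ := avoid L1 K S1 hS1 (fun l hl => ⟨(hS1p l hl).1, (hS1p l hl).2.1⟩)
    ((3 * n : ℕ) : ℤ) (by exact_mod_cast (by omega : 3 * n ≠ 0))
    (by rw [Nat.abs_cast]; exact_mod_cast hnL1)
  obtain ⟨hl1p, hl1L, hl1U⟩ := hS1p l1 hl1S
  have hl1q' : ¬ l1 ∣ 3 * n := fun h => hl1q (Int.natCast_dvd_natCast.2 h)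
  have hbig : max 0 (mu n S a β) + Real.log Y ≤ √3 * Real.log l1 := by
    refine hL1.trans (mul_le_mul_of_nonneg_left ?_ (Real.sqrt_nonneg _))
    exact Real.log_le_log (by exact_mod_cast hL1pos) (by exact_mod_cast hl1L.le)
  obtain ⟨S0, hS, hSp⟩ := primes_list L K hLpos
  have hc1 := qcov3 n (qq S a) B T hA.cube_dvd hn1 hq hT
  have hc2 : Cov (Sol n B) (Cong (l1 : ℤ)) (3 * l1 ^ 2) :=
    cov_mono (scov l1 hl1p n) (fun P hP => hP.2.1) (fun _ _ _ _ h => h) le_rfl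
  have hmain := cov_and (cov_and hc1 (cov3 (Sol n B))) hc2 W
    (D3 * (K * (6 * D3 * (2 ^ K * L) * ((36 * κ + 54) * T ^ 3)))) hW
    (by
      intro W' hW' hp
      have hWs : ∀ P ∈ W', P ∈ Sol n B := fun P hP => hW P (hW' hP)
      have hp1 : Pw (Crs (3 * (qq S a : ℤ))) W' := fun P hP P' hP' => (hp P hP P' hP').1.1
      have hp3 : Pw (Cong 3) W' := fun P hP P' hP' => (hp P hP P' hP').1.2
      have hp2 : Pw (Cong (l1 : ℤ)) W' := fun P hP P' hP' => (hp P hP P' hP').2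
      obtain ⟨G, hG0, hG, h0⟩ :=
        form_low n B Y κ D l1 S a β hA hn1 hB hnY hD (by omega) hl1p hl1q' hbig W' hWs hp1 hp3 hp2
      rw [← hD3] at hG
      refine curve n B D3 L K _ (2 ^ K * L) S0 hS hSp hn1 hB1 hbigL W' hWs ?_ G hG0 hG h0
      intro l hl hln W'' hW'' hC
      refine plane3 n X (qq S a) B κ Y T l hpar hn hq (hSp l hl).1 hln ?_ ?_ W''
        (fun P hP => hWs P (hW'' hP)) (hp1.mono hW'') (hp3.mono hW'') hC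
      · exact hL.trans (Nat.pow_le_pow_left (hSp l hl).2.1.le 6)
      · exact hL'.trans (Nat.pow_le_pow_left (hSp l hl).2.1.le 27))
  refine hmain.trans ?_
  have h5 : l1 ^ 2 ≤ (2 ^ K * L1) ^ 2 := Nat.pow_le_pow_left hl1U 2
  calc 3 * qq S a * T ^ 4 * 27 * (3 * l1 ^ 2) *
        (D3 * (K * (6 * D3 * (2 ^ K * L) * ((36 * κ + 54) * T ^ 3))))
      ≤ 3 * qq S a * T ^ 4 * 27 * (3 * (2 ^ K * L1) ^ 2) *
        (D3 * (K * (6 * D3 * (2 ^ K * L) * ((36 * κ + 54) * T ^ 3)))) := by gcongr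
    _ = _ := by ring

end Pool.Agent.Lib.MP_9c5702_nt.QB
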