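import Pool.Agent.Lib.MP_9c5702_nt.Q4.Defs

/-! Determinant method for `x^3 + y^3 + z^3 = n` with local weights at each prime: notions. -/

set_option autoImplicit false

namespace Pool.Agent.Lib.MP_9c5702_nt.QB

open MvPolynomial Pool.Agent.Lib.MP_9c5702_nt.Q4

/-- number of pairs `(i, j)` with `a i + b j < k` (for `a, b ≥ 1`) -/
def Nab (a b k : ℕ) : ℕ :=
  ((Finset.range k ×ˢ Finset.range k).filter (fun p : ℕ × ℕ => a * p.1 + b * p.2 < k)).card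

/-- projective chart modulo powers of `q` that keeps the scale factor -/
def ChartK (q n : ℤ) (W : Finset V) : Prop :=
  ∀ N : ℕ, ∃ u κ c c' : V → ℤ, ∃ Pt : V → V,
    (∀ P ∈ W, q ∣ u P ∧ q ^ N ∣ c P * c' P - 1 ∧ c' P ^ 3 = 9 * κ P + 1 ∧
      ∀ k, q ^ N ∣ P k - c P * Pt P k) ∧
    ∀ k, Apx q N W u (fun P => n * κ P) (fun P => Pt P k)

/-- affine chart with two local coordinates -/
def SChart (π : ℤ) (W : Finset V) : Prop :=
  ∀ N : ℕ, ∃ u t : V → ℤ, (∀ P ∈ W, π ∣ u P ∧ π ∣ t P) ∧ ∀ k, Apx π N W u t (fun P => P k)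

abbrev I3 := ℕ × ℕ × ℕ

def dg (r : I3) : ℕ := r.1 + r.2.1 + r.2.2

/-- exponents `(i, j, l)` with `l ≤ 2` and `i + j + l ≤ D` -/
def Low (D : ℕ) : Finset I3 :=
  (Finset.range (D + 1) ×ˢ Finset.range (D + 1) ×ˢ Finset.range 3).filter (fun r => dg r ≤ D)

def mon (r : I3) (P : V) : ℤ := P 0 ^ r.1 * P 1 ^ r.2.1 * P 2 ^ r.2.2

noncomputable def monP (r : I3) : MvPolynomial (Fin 3) ℤ :=
  X 0 ^ r.1 * X 1 ^ r.2.1 * X 2 ^ r.2.2

noncomputable def FP : MvPolynomial (Fin 3) ℤ := X 0 ^ 3 + X 1 ^ 3 + X 2 ^ 3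

def ee (D : ℕ) (r : I3) : ℕ := (D - dg r) / 3

/-- the matrix of the low monomials at chosen points -/
def lowM (D : ℕ) (p : Low D → V) : Matrix (Low D) (Low D) ℤ := Matrix.of fun r i => mon r.1 (p i)

def Adm (n : ℕ) (S : Finset ℕ) (a β : ℕ → ℕ) : Prop :=
  ∀ p ∈ S, p.Prime ∧ 3 * a p ≤ β p ∧ p ^ β p ∣ n

def qq (S : Finset ℕ) (a : ℕ → ℕ) : ℕ := ∏ p ∈ S, p ^ a p

noncomputable def phi (a b : ℕ) : ℝ := √((a : ℝ) * b) - (b : ℝ) / 6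

noncomputable def mu (n : ℕ) (S : Finset ℕ) (a β : ℕ → ℕ) : ℝ :=
  Real.log n / 3 - ∑ p ∈ S, phi (a p) (β p) * Real.log p

noncomputable def Bd (n : ℕ) (S : Finset ℕ) (a β : ℕ → ℕ) : ℝ :=
  (qq S a : ℝ) * Real.exp (2 / √3 * max 0 (mu n S a β)) *
    max (((n : ℝ) / (qq S a : ℝ) ^ 3) ^ ((1 : ℝ) / 6)) ((n : ℝ) ^ ((1 : ℝ) / 27))

lemma mem_Low {D : ℕ} {r : I3} : r ∈ Low D ↔ r.2.2 ≤ 2 ∧ dg r ≤ D := by
  simp only [Low, dg, Finset.mem_filter, Finset.mem_product, Finset.mem_range]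
  omega

lemma eval_monP (r : I3) (P : V) : eval P (monP r) = mon r P := by
  simp [monP, mon]

lemma eval_FP (P : V) : eval P FP = F P := by
  simp [FP, F]

lemma prod_pow_dvd {n : ℕ} {S : Finset ℕ} {e : ℕ → ℕ} (hS : ∀ p ∈ S, p.Prime)
    (h : ∀ p ∈ S, p ^ e p ∣ n) : (∏ p ∈ S, p ^ e p) ∣ n :=
  Finset.prod_dvd_of_isRelPrime (fun p hp p' hp' hne => Nat.coprime_iff_isRelPrime.1
    (Nat.Coprime.pow _ _ ((Nat.coprime_primes (hS p hp) (hS p' hp')).2 hne))) h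

lemma Adm.prod_dvd {n : ℕ} {S : Finset ℕ} {a β : ℕ → ℕ} (h : Adm n S a β) :
    (∏ p ∈ S, p ^ β p) ∣ n :=
  prod_pow_dvd (fun p hp => (h p hp).1) fun p hp => (h p hp).2.2

lemma Adm.cube_dvd {n : ℕ} {S : Finset ℕ} {a β : ℕ → ℕ} (h : Adm n S a β) : qq S a ^ 3 ∣ n := by
  refine dvd_trans ?_ h.prod_dvd
  rw [qq, ← Finset.prod_pow]
  refine Finset.prod_dvd_prod_of_dvd _ _ fun p hp => ?_
  rw [← pow_mul, mul_comm]
  exact pow_dvd_pow p (h p hp).2.1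

lemma Adm.qq_pos {n : ℕ} {S : Finset ℕ} {a β : ℕ → ℕ} (h : Adm n S a β) : 1 ≤ qq S a :=
  Finset.prod_pos fun p hp => pow_pos (h p hp).1.pos _

lemma log_prod_pow {S : Finset ℕ} (e : ℕ → ℕ) (hS : ∀ p ∈ S, p.Prime) :
    Real.log ((∏ p ∈ S, p ^ e p : ℕ) : ℝ) = ∑ p ∈ S, (e p : ℝ) * Real.log p := by
  rw [Nat.cast_prod, Real.log_prod fun p hp => by
    have := (hS p hp).pos
    positivity]
  exact Finset.sum_congr rfl fun p _ => by rw [Nat.cast_pow, Real.log_pow]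

lemma Adm.sum_log_le {n : ℕ} {S : Finset ℕ} {a β : ℕ → ℕ} (h : Adm n S a β) (hn : 1 ≤ n) :
    ∑ p ∈ S, (β p : ℝ) * Real.log p ≤ Real.log n := by
  rw [← log_prod_pow β fun p hp => (h p hp).1]
  have h1 : 0 < ∏ p ∈ S, p ^ β p := Finset.prod_pos fun p hp => pow_pos (h p hp).1.pos _
  exact Real.log_le_log (by exact_mod_cast h1) (by exact_mod_cast Nat.le_of_dvd hn h.prod_dvd)

end Pool.Agent.Lib.MP_9c5702_nt.QB
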