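import Pool.Agent.Lib.MP_9c5702_nt.QB.Main

/-! Consequence: integers whose prime exponents are at least four and not six. -/

set_option autoImplicit false

namespace Pool.Agent.Lib.MP_9c5702_nt.QB

open Pool.Agent.Lib.MP_9c5702_nt.Q4

lemma full_g : (1.1547 : ℝ) < 2 / √3 ∧ 2 / √3 < (1.1548 : ℝ) := by
  have h3 : (0 : ℝ) < √3 := Real.sqrt_pos.2 (by norm_num)
  have h1 : √3 < (1.732051 : ℝ) := Real.sqrt_lt' (by norm_num) |>.2 (by norm_num)
  have h2 : (1.732 : ℝ) < √3 := Real.lt_sqrt (by norm_num) |>.2 (by norm_num)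
  constructor
  · rw [lt_div_iff₀ h3]; linarith
  · rw [div_lt_iff₀ h3]; linarith

lemma full_sqrt {a b : ℝ} (hb : 0 ≤ b) (h1 : b ≤ 5 * a) (h2 : 7 * a ≤ 2 * b) :
    a + 0.2472 * b ≤ √(a * b) := by
  refine Real.le_sqrt_of_sq_le ?_
  nlinarith [mul_nonneg (sub_nonneg.2 h1) (sub_nonneg.2 h2), mul_nonneg hb hb,
    mul_nonneg hb (sub_nonneg.2 h1), mul_nonneg hb (sub_nonneg.2 h2)]

lemma full_num {g Q N M : ℝ} (hg : 1.1547 < g) (hg' : g < 1.1548) (hN : 0 ≤ N) (h1 : N ≤ 5 * Q)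
    (h2 : 7 * Q ≤ 2 * N) (hM : M ≤ 0.2528 * N - Q) :
    Q + g * max 0 M + max ((N - 3 * Q) / 6) (N / 27) ≤ N * (41 / 125) := by
  have e1 := mul_nonneg (sub_nonneg.2 hg'.le) hN
  have e2 := mul_nonneg (sub_nonneg.2 hg.le) (sub_nonneg.2 h1)
  have e3 := mul_nonneg (show 0 ≤ g by linarith) (sub_nonneg.2 hM)
  rcases le_total 0 M with h | h
  · rw [max_eq_right h]
    rcases le_total ((N - 3 * Q) / 6) (N / 27) with h' | h'
    · rw [max_eq_right h']; nlinarith
    · rw [max_eq_left h']; nlinarith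
  · rw [max_eq_left h, mul_zero]
    rcases le_total ((N - 3 * Q) / 6) (N / 27) with h' | h'
    · rw [max_eq_right h']; linarith
    · rw [max_eq_left h']; linarith

lemma full_exp {n : ℕ} (hn : 1 ≤ n) {S : Finset ℕ} {a β : ℕ → ℕ} (h : Adm n S a β) :
    Bd n S a β = Real.exp (Real.log (qq S a) + 2 / √3 * max 0 (mu n S a β) +
      max ((Real.log n - 3 * Real.log (qq S a)) / 6) (Real.log n / 27)) := by
  have hq : (0 : ℝ) < qq S a := by exact_mod_cast h.qq_pos
  have hn' : (0 : ℝ) < n := by exact_mod_cast hn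
  have e1 : ((n : ℝ) / (qq S a : ℝ) ^ 3) ^ ((1 : ℝ) / 6) =
      Real.exp ((Real.log n - 3 * Real.log (qq S a)) / 6) := by
    rw [Real.rpow_def_of_pos (by positivity), Real.log_div hn'.ne' (by positivity), Real.log_pow]
    push_cast
    ring_nf
  have e2 : (n : ℝ) ^ ((1 : ℝ) / 27) = Real.exp (Real.log n / 27) := by
    rw [Real.rpow_def_of_pos hn']
    ring_nf
  rw [Bd, e1, e2, Real.exp_add, Real.exp_add, Real.exp_log hq, Real.exp_monotone.map_max]

lemma full_adm {n : ℕ}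
    (h : ∀ p : ℕ, p.Prime → p ∣ n → 4 ≤ n.factorization p ∧ n.factorization p ≠ 6) :
    Adm n n.primeFactors (fun p => (n.factorization p + 4) / 5) n.factorization := by
  intro p hp
  have hp1 := Nat.prime_of_mem_primeFactors hp
  have := h p hp1 (Nat.dvd_of_mem_primeFactors hp)
  refine ⟨hp1, ?_, Nat.ordProj_dvd n p⟩
  show 3 * ((n.factorization p + 4) / 5) ≤ n.factorization p
  omega

theorem full_bd (n : ℕ) (hn : 1 ≤ n)
    (h : ∀ p : ℕ, p.Prime → p ∣ n → 4 ≤ n.factorization p ∧ n.factorization p ≠ 6) :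
    Bd n n.primeFactors (fun p => (n.factorization p + 4) / 5) n.factorization ≤
      (n : ℝ) ^ ((41 : ℝ) / 125) := by
  have hA := full_adm h
  have hn' : (0 : ℝ) < n := by exact_mod_cast hn
  have hS : ∀ p ∈ n.primeFactors, p.Prime := fun p hp => Nat.prime_of_mem_primeFactors hp
  have hN : Real.log n = ∑ p ∈ n.primeFactors, (n.factorization p : ℝ) * Real.log p := by
    rw [← log_prod_pow n.factorization hS]
    have := Nat.prod_factorization_pow_eq_self (show n ≠ 0 by omega)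
    rw [Finsupp.prod, Nat.support_factorization] at this
    rw [this]
  have hQ : Real.log (qq n.primeFactors fun p => (n.factorization p + 4) / 5) =
      ∑ p ∈ n.primeFactors, (((n.factorization p + 4) / 5 : ℕ) : ℝ) * Real.log p :=
    log_prod_pow _ hS
  have hL : ∀ p : ℕ, 0 ≤ Real.log p := fun p => Real.log_natCast_nonneg p
  have hp : ∀ p ∈ n.primeFactors,
      (n.factorization p : ℝ) ≤ 5 * (((n.factorization p + 4) / 5 : ℕ) : ℝ) ∧
      7 * (((n.factorization p + 4) / 5 : ℕ) : ℝ) ≤ 2 * (n.factorization p : ℝ) := by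
    intro p hp
    have := h p (hS p hp) (Nat.dvd_of_mem_primeFactors hp)
    have h1 : n.factorization p ≤ 5 * ((n.factorization p + 4) / 5) := by omega
    have h2 : 7 * ((n.factorization p + 4) / 5) ≤ 2 * n.factorization p := by omega
    exact ⟨by exact_mod_cast h1, by exact_mod_cast h2⟩
  rw [full_exp hn hA, Real.rpow_def_of_pos hn']
  refine Real.exp_le_exp.2 (full_num full_g.1 full_g.2 (hL n) ?_ ?_ ?_)
  · rw [hQ, hN, Finset.mul_sum]
    refine Finset.sum_le_sum fun p hp' => ?_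
    have := mul_le_mul_of_nonneg_right (hp p hp').1 (hL p)
    linarith
  · rw [hQ, hN, Finset.mul_sum, Finset.mul_sum]
    refine Finset.sum_le_sum fun p hp' => ?_
    have := mul_le_mul_of_nonneg_right (hp p hp').2 (hL p)
    linarith
  · rw [mu, hQ, hN, Finset.mul_sum, Finset.sum_div, ← Finset.sum_sub_distrib,
      ← Finset.sum_sub_distrib]
    refine Finset.sum_le_sum fun p hp' => ?_
    have := mul_le_mul_of_nonneg_right
      (full_sqrt (Nat.cast_nonneg (n.factorization p)) (hp p hp').1 (hp p hp').2) (hL p)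
    rw [phi]
    linarith

theorem full (ε : ℝ) (hε : 0 < ε) : ∃ C : ℝ, ∀ n : ℕ, 1 ≤ n →
    (∀ p : ℕ, p.Prime → p ∣ n → 4 ≤ n.factorization p ∧ n.factorization p ≠ 6) →
    (r33 n : ℝ) ≤ C * (n : ℝ) ^ ((41 : ℝ) / 125 + ε) := by
  obtain ⟨C, hC, H⟩ := main_gen ε hε
  refine ⟨C, fun n hn h => (H n _ _ _ hn (full_adm h)).trans ?_⟩
  have hn' : (0 : ℝ) < n := by exact_mod_cast hn
  rw [add_comm, Real.rpow_add hn', ← mul_assoc]
  exact mul_le_mul_of_nonneg_left (full_bd n hn h) (by positivity)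

end Pool.Agent.Lib.MP_9c5702_nt.QB
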