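import Pool.Agent.Lib.MP_9c5702_nt.QB.Defs
import Pool.Agent.Lib.MP_9c5702_nt.Q4.Red

/-! The general bound contains the bound for `a q^4`. -/

set_option autoImplicit false

namespace Pool.Agent.Lib.MP_9c5702_nt.QB

open Pool.Agent.Lib.MP_9c5702_nt.Q4

lemma implies_prod {q : ℕ} (hq : 1 ≤ q) :
    ∏ p ∈ q.primeFactors, (p : ℝ) ^ (((4 * q.factorization p : ℕ) : ℝ) / 6 -
      √((q.factorization p : ℝ) * ((4 * q.factorization p : ℕ) : ℝ))) =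
      (q : ℝ) ^ (-(4 : ℝ) / 3) := by
  have h1 : ∏ p ∈ q.primeFactors, (p : ℝ) ^ q.factorization p = (q : ℝ) := by
    have h2 := Nat.prod_factorization_pow_eq_self (by omega : q ≠ 0)
    rw [Finsupp.prod, Nat.support_factorization] at h2
    exact_mod_cast h2
  have h3 := Real.finsetProd_rpow q.primeFactors (fun p => (p : ℝ) ^ q.factorization p)
    (fun p _ => by positivity) (-(4 : ℝ) / 3)
  rw [h1] at h3
  rw [← h3]
  refine Finset.prod_congr rfl fun p _ => ?_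
  rw [← Real.rpow_natCast, ← Real.rpow_mul (Nat.cast_nonneg _)]
  congr 1
  have h4 : √((q.factorization p : ℝ) * ((4 * q.factorization p : ℕ) : ℝ)) =
      2 * (q.factorization p : ℝ) := by
    rw [Real.sqrt_eq_iff_mul_self_eq (by positivity) (by positivity)]
    push_cast
    ring
  rw [h4]
  push_cast
  ring

theorem implies_fourth
    (h : ∀ ε : ℝ, 0 < ε → ∃ C : ℝ, ∀ (n q : ℕ) (b : ℕ → ℕ), 1 ≤ n → 1 ≤ q →
      (∀ p ∈ q.primeFactors, 3 * q.factorization p ≤ b p ∧ p ^ b p ∣ n) →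
      (r33 n : ℝ) ≤ C * (n : ℝ) ^ ε * q *
        (max 1 ((n : ℝ) ^ ((1 : ℝ) / 3) * ∏ p ∈ q.primeFactors,
          (p : ℝ) ^ ((b p : ℝ) / 6 - √((q.factorization p : ℝ) * b p)))) ^ (2 / √3) *
        max (((n : ℝ) / (q : ℝ) ^ 3) ^ ((1 : ℝ) / 6)) ((n : ℝ) ^ ((1 : ℝ) / 27))) :
    ∀ ε : ℝ, 0 < ε → ∃ C : ℝ, ∀ a q : ℕ, 1 ≤ a → 1 ≤ q →
      (r33 (a * q ^ 4) : ℝ) ≤ C * ((a : ℝ) * q) ^ ((7 : ℝ) / 6 + ε) := by
  intro ε hε
  obtain ⟨C, hC⟩ := h (ε / 4) (by positivity)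
  refine ⟨max C 0, fun a q ha hq => ?_⟩
  have hn : 1 ≤ a * q ^ 4 := Nat.mul_pos ha (Nat.pow_pos hq)
  have h1 := hC (a * q ^ 4) q (fun p => 4 * q.factorization p) hn hq fun p _ =>
    ⟨by omega, by
      rw [mul_comm 4, pow_mul]
      exact Dvd.dvd.mul_left (pow_dvd_pow_of_dvd (Nat.ordProj_dvd q p) 4) a⟩
  rw [implies_prod hq] at h1
  have ha1 : (1 : ℝ) ≤ a := by exact_mod_cast ha
  have hq1 : (1 : ℝ) ≤ q := by exact_mod_cast hq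
  have ha0 : (0 : ℝ) < a := by linarith
  have hq0 : (0 : ℝ) < q := by linarith
  have hx1 : (1 : ℝ) ≤ (a : ℝ) * q := one_le_mul_of_one_le_of_one_le ha1 hq1
  have hx0 : (0 : ℝ) < (a : ℝ) * q := by linarith
  have hnc : ((a * q ^ 4 : ℕ) : ℝ) = (a : ℝ) * (q : ℝ) ^ 4 := by push_cast; ring
  rw [hnc] at h1
  have hle : (a : ℝ) * (q : ℝ) ^ 4 ≤ ((a : ℝ) * q) ^ (4 : ℝ) := by
    rw [show (4 : ℝ) = ((4 : ℕ) : ℝ) by norm_num, Real.rpow_natCast, mul_pow]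
    exact mul_le_mul_of_nonneg_right (le_self_pow₀ ha1 (by norm_num)) (by positivity)
  have e1 : ((a : ℝ) * (q : ℝ) ^ 4) ^ ((1 : ℝ) / 3) * (q : ℝ) ^ (-(4 : ℝ) / 3) =
      (a : ℝ) ^ ((1 : ℝ) / 3) := by
    rw [Real.mul_rpow ha0.le (by positivity), ← Real.rpow_natCast, ← Real.rpow_mul hq0.le,
      mul_assoc, ← Real.rpow_add hq0]
    norm_num
  have e2 : (a : ℝ) * (q : ℝ) ^ 4 / (q : ℝ) ^ 3 = (a : ℝ) * q := by field_simp
  rw [e1, e2, max_eq_right (Real.one_le_rpow ha1 (by norm_num))] at h1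
  have b1 : ((a : ℝ) * (q : ℝ) ^ 4) ^ (ε / 4) ≤ ((a : ℝ) * q) ^ ε := by
    refine (Real.rpow_le_rpow (by positivity) hle (by positivity)).trans_eq ?_
    rw [← Real.rpow_mul hx0.le]
    congr 1
    ring
  have b2 : ((a : ℝ) ^ ((1 : ℝ) / 3)) ^ (2 / √3) ≤ a := by
    rw [← Real.rpow_mul ha0.le]
    refine (Real.rpow_le_rpow_of_exponent_le ha1 ?_).trans_eq (Real.rpow_one _)
    have h3 : (1 : ℝ) ≤ √3 := Real.one_le_sqrt.2 (by norm_num)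
    have h4 : 2 / √3 ≤ 2 := div_le_self (by norm_num) h3
    linarith
  have b3 : max (((a : ℝ) * q) ^ ((1 : ℝ) / 6)) (((a : ℝ) * (q : ℝ) ^ 4) ^ ((1 : ℝ) / 27)) ≤
      ((a : ℝ) * q) ^ ((1 : ℝ) / 6) := by
    refine max_le le_rfl ((Real.rpow_le_rpow (by positivity) hle (by norm_num)).trans ?_)
    rw [← Real.rpow_mul hx0.le]
    exact Real.rpow_le_rpow_of_exponent_le hx1 (by norm_num)
  have e3 : ((a : ℝ) * q) ^ ((7 : ℝ) / 6 + ε) =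
      ((a : ℝ) * q) ^ ε * q * a * ((a : ℝ) * q) ^ ((1 : ℝ) / 6) := by
    rw [show (7 : ℝ) / 6 + ε = ε + 1 + 1 / 6 by ring, Real.rpow_add hx0, Real.rpow_add hx0,
      Real.rpow_one]
    ring
  refine h1.trans ?_
  rw [e3]
  have hm : 0 ≤ max (((a : ℝ) * q) ^ ((1 : ℝ) / 6))
      (((a : ℝ) * (q : ℝ) ^ 4) ^ ((1 : ℝ) / 27)) := le_max_of_le_left (by positivity)
  calc C * ((a : ℝ) * (q : ℝ) ^ 4) ^ (ε / 4) * q * ((a : ℝ) ^ ((1 : ℝ) / 3)) ^ (2 / √3) *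
        max (((a : ℝ) * q) ^ ((1 : ℝ) / 6)) (((a : ℝ) * (q : ℝ) ^ 4) ^ ((1 : ℝ) / 27))
      ≤ max C 0 * ((a : ℝ) * (q : ℝ) ^ 4) ^ (ε / 4) * q * ((a : ℝ) ^ ((1 : ℝ) / 3)) ^ (2 / √3) *
        max (((a : ℝ) * q) ^ ((1 : ℝ) / 6)) (((a : ℝ) * (q : ℝ) ^ 4) ^ ((1 : ℝ) / 27)) := by
        gcongr
        exact le_max_left _ _
    _ ≤ max C 0 * ((a : ℝ) * q) ^ ε * q * a * ((a : ℝ) * q) ^ ((1 : ℝ) / 6) := by
        have hC0 : 0 ≤ max C 0 := le_max_right _ _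
        gcongr
    _ = _ := by ring

end Pool.Agent.Lib.MP_9c5702_nt.QB
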