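import Pool.Agent.Lib.MP_9c5702_nt.QB.Core2
import Pool.Agent.Lib.MP_9c5702_nt.QB.Red
import Pool.Agent.Lib.MP_9c5702_nt.Q4.Red

/-! The bound for all representations. -/

set_option autoImplicit false

namespace Pool.Agent.Lib.MP_9c5702_nt.QB

open Pool.Agent.Lib.MP_9c5702_nt.Q4

theorem main_gen (ε : ℝ) (hε : 0 < ε) : ∃ C : ℝ, 0 < C ∧ ∀ (n : ℕ) (S : Finset ℕ) (a β : ℕ → ℕ),
    1 ≤ n → Adm n S a β → (r33 n : ℝ) ≤ C * (n : ℝ) ^ ε * Bd n S a β := by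
  obtain ⟨C1, hC1, h1⟩ := core2 (ε / 2) (by positivity)
  obtain ⟨C2, hC2, h2⟩ := divisor_bound (ε := ε / 2) (by positivity)
  refine ⟨C2 * C1, by positivity, fun n S a β hn hA => ?_⟩
  have hn0 : (0 : ℝ) < n := by exact_mod_cast hn
  have hB0 : ∀ (m : ℕ) (a' β' : ℕ → ℕ), 0 ≤ Bd m S a' β' := fun m a' β' => by
    unfold Bd
    exact mul_nonneg (by positivity) (le_max_of_le_right (by positivity))
  have hred := red n hn (C1 * (n : ℝ) ^ (ε / 2) * Bd n S a β) (by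
    intro d m B hd hm hB W hW
    have hm1 : 1 ≤ m := Nat.pos_of_ne_zero fun h0 => by simp [h0] at hm; omega
    obtain ⟨a', β', hA', hle⟩ := red_step n d m hd hm1 hm S a β hA
    refine (h1 m B S a' β' hm1 hA' hB W hW).trans ?_
    have hmn : (m : ℝ) ≤ n := by
      have : m ≤ n := by rw [hm]; exact Nat.le_mul_of_pos_left _ (pow_pos hd 3)
      exact_mod_cast this
    have := hB0 m a' β'
    gcongr)
  refine hred.trans ?_
  have hτ := h2 n (by omega)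
  have := hB0 n a β
  calc ((n.divisors.card : ℕ) : ℝ) * (C1 * (n : ℝ) ^ (ε / 2) * Bd n S a β)
      ≤ C2 * (n : ℝ) ^ (ε / 2) * (C1 * (n : ℝ) ^ (ε / 2) * Bd n S a β) := by gcongr
    _ = C2 * C1 * ((n : ℝ) ^ (ε / 2) * (n : ℝ) ^ (ε / 2)) * Bd n S a β := by ring
    _ = _ := by rw [← Real.rpow_add hn0, add_halves]

theorem main (ε : ℝ) (hε : 0 < ε) : ∃ C : ℝ, ∀ (n q : ℕ) (b : ℕ → ℕ), 1 ≤ n → 1 ≤ q →
    (∀ p ∈ q.primeFactors, 3 * q.factorization p ≤ b p ∧ p ^ b p ∣ n) →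
    (r33 n : ℝ) ≤ C * (n : ℝ) ^ ε * q *
      (max 1 ((n : ℝ) ^ ((1 : ℝ) / 3) * ∏ p ∈ q.primeFactors,
        (p : ℝ) ^ ((b p : ℝ) / 6 - √((q.factorization p : ℝ) * b p)))) ^ (2 / √3) *
      max (((n : ℝ) / (q : ℝ) ^ 3) ^ ((1 : ℝ) / 6)) ((n : ℝ) ^ ((1 : ℝ) / 27)) := by
  obtain ⟨C, -, hC⟩ := main_gen ε hε
  refine ⟨C, fun n q b hn hq h => ?_⟩
  have hn0 : (0 : ℝ) < n := by exact_mod_cast hn
  have hA : Adm n q.primeFactors q.factorization b := fun p hp =>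
    ⟨Nat.prime_of_mem_primeFactors hp, h p hp⟩
  have hqq : qq q.primeFactors q.factorization = q := Nat.prod_factorization_pow_eq_self (by omega)
  have hM : (n : ℝ) ^ ((1 : ℝ) / 3) * ∏ p ∈ q.primeFactors,
      (p : ℝ) ^ ((b p : ℝ) / 6 - √((q.factorization p : ℝ) * b p)) =
      Real.exp (mu n q.primeFactors q.factorization b) := by
    rw [mu, sub_eq_add_neg, Real.exp_add, ← Finset.sum_neg_distrib, Real.exp_sum,
      Real.rpow_def_of_pos hn0]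
    congr 1
    · congr 1; ring
    · refine Finset.prod_congr rfl fun p hp => ?_
      have hp0 : (0 : ℝ) < p := by exact_mod_cast (hA p hp).1.pos
      rw [Real.rpow_def_of_pos hp0, phi]
      congr 1; ring
  have hE : ∀ x : ℝ, (max 1 (Real.exp x)) ^ (2 / √3 : ℝ) = Real.exp (2 / √3 * max 0 x) := by
    intro x
    rw [mul_comm, Real.exp_mul, Real.exp_monotone.map_max, Real.exp_zero]
  refine (hC n _ _ b hn hA).trans (le_of_eq ?_)
  rw [hM, hE, Bd, hqq]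
  ring

end Pool.Agent.Lib.MP_9c5702_nt.QB
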