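import Pool.Agent.Lib.MP_9c5702_nt.QB.Defs

/-! The norm form of a pure cubic extension is anisotropic. -/

set_option autoImplicit false

namespace Pool.Agent.Lib.MP_9c5702_nt.QB

open MvPolynomial Pool.Agent.Lib.MP_9c5702_nt.Q4

lemma norm_step (p : ℤ) (hp : Prime p) (n f g0 g1 g2 : ℤ) (hf : ¬ p ∣ f) (hn : ¬ p ∣ n)
    (h : n ^ 2 * g0 ^ 3 + n * g1 ^ 3 * (p * f) + g2 ^ 3 * (p * f) ^ 2
      - 3 * n * g0 * g1 * g2 * (p * f) = 0) :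
    p ∣ g0 ∧ p ∣ g1 ∧ p ∣ g2 := by
  have hp0 : p ≠ 0 := hp.ne_zero
  have h0 : p ∣ g0 := by
    have e : p ∣ n ^ 2 * g0 ^ 3 :=
      ⟨-(n * g1 ^ 3 * f) - g2 ^ 3 * p * f ^ 2 + 3 * n * g0 * g1 * g2 * f, by linear_combination h⟩
    rcases hp.dvd_or_dvd e with e | e
    · exact absurd (hp.dvd_of_dvd_pow e) hn
    · exact hp.dvd_of_dvd_pow e
  obtain ⟨a, rfl⟩ := h0
  have h' : n ^ 2 * p ^ 2 * a ^ 3 + n * g1 ^ 3 * f + g2 ^ 3 * p * f ^ 2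
      - 3 * n * p * a * g1 * g2 * f = 0 := by
    apply mul_left_cancel₀ hp0
    linear_combination h
  have h1 : p ∣ g1 := by
    have e : p ∣ n * g1 ^ 3 * f :=
      ⟨-(n ^ 2 * p * a ^ 3) - g2 ^ 3 * f ^ 2 + 3 * n * a * g1 * g2 * f, by linear_combination h'⟩
    rcases hp.dvd_or_dvd e with e | e
    · rcases hp.dvd_or_dvd e with e | e
      · exact absurd e hn
      · exact hp.dvd_of_dvd_pow e
    · exact absurd e hf
  obtain ⟨b, rfl⟩ := h1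
  have h'' : n ^ 2 * p * a ^ 3 + n * p ^ 2 * b ^ 3 * f + g2 ^ 3 * f ^ 2
      - 3 * n * p * a * b * g2 * f = 0 := by
    apply mul_left_cancel₀ hp0
    linear_combination h'
  have h2 : p ∣ g2 := by
    have e : p ∣ g2 ^ 3 * f ^ 2 :=
      ⟨-(n ^ 2 * a ^ 3) - n * p * b ^ 3 * f + 3 * n * a * b * g2 * f, by linear_combination h''⟩
    rcases hp.dvd_or_dvd e with e | e
    · exact hp.dvd_of_dvd_pow e
    · exact absurd (hp.dvd_of_dvd_pow e) hf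
  exact ⟨dvd_mul_right _ _, dvd_mul_right _ _, h2⟩

lemma norm_ind (p : ℤ) (hp : Prime p) (n f : ℤ) (hf : ¬ p ∣ f) (hn : ¬ p ∣ n) (N : ℕ) :
    ∀ g0 g1 g2 : ℤ, g0.natAbs + g1.natAbs + g2.natAbs = N →
      n ^ 2 * g0 ^ 3 + n * g1 ^ 3 * (p * f) + g2 ^ 3 * (p * f) ^ 2
        - 3 * n * g0 * g1 * g2 * (p * f) = 0 → g0 = 0 ∧ g1 = 0 ∧ g2 = 0 := by
  induction N using Nat.strong_induction_on with
  | _ N ih =>
    intro g0 g1 g2 hN h
    obtain ⟨⟨a, rfl⟩, ⟨b, rfl⟩, ⟨c, rfl⟩⟩ := norm_step p hp n f g0 g1 g2 hf hn h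
    have hp2 : 2 ≤ p.natAbs := (Int.prime_iff_natAbs_prime.1 hp).two_le
    have h' : n ^ 2 * a ^ 3 + n * b ^ 3 * (p * f) + c ^ 3 * (p * f) ^ 2
        - 3 * n * a * b * c * (p * f) = 0 := by
      apply mul_left_cancel₀ (pow_ne_zero 3 hp.ne_zero)
      linear_combination h
    simp only [Int.natAbs_mul] at hN
    by_cases hz : a.natAbs + b.natAbs + c.natAbs = 0
    · have ha : a = 0 := Int.natAbs_eq_zero.1 (by omega)
      have hb : b = 0 := Int.natAbs_eq_zero.1 (by omega)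
      have hc : c = 0 := Int.natAbs_eq_zero.1 (by omega)
      simp [ha, hb, hc]
    · have hlt : a.natAbs + b.natAbs + c.natAbs < N := by
        have e1 := Nat.mul_le_mul_right a.natAbs hp2
        have e2 := Nat.mul_le_mul_right b.natAbs hp2
        have e3 := Nat.mul_le_mul_right c.natAbs hp2
        omega
      obtain ⟨ha, hb, hc⟩ := ih _ hlt a b c rfl h'
      simp [ha, hb, hc]

theorem norm_desc (p : ℤ) (hp : Prime p) (n f g0 g1 g2 : ℤ) (hf : p ∣ f) (hf2 : ¬ p ^ 2 ∣ f)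
    (hn : ¬ p ∣ n)
    (h : n ^ 2 * g0 ^ 3 + n * g1 ^ 3 * f + g2 ^ 3 * f ^ 2 - 3 * n * g0 * g1 * g2 * f = 0) :
    g0 = 0 ∧ g1 = 0 ∧ g2 = 0 := by
  obtain ⟨f', rfl⟩ := hf
  have hf' : ¬ p ∣ f' := fun e => hf2 (by rw [pow_two]; exact mul_dvd_mul_left p e)
  exact norm_ind p hp n f' hf' hn _ g0 g1 g2 rfl h

lemma norm_pt (p a b c : ℤ) (P : V) (h0 : P 0 = 1 + p ^ 2 * a) (h1 : P 1 = p - 1 + p ^ 2 * b)
    (h2 : P 2 = 0 + p ^ 2 * c) : ∃ K : ℤ, F P = 3 * p + p ^ 2 * K :=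
  ⟨3 * a + 3 * p ^ 2 * a ^ 2 + p ^ 4 * a ^ 3 + 3 * (p - 1) ^ 2 * b + 3 * (p - 1) * p ^ 2 * b ^ 2
    + p ^ 4 * b ^ 3 + p ^ 4 * c ^ 3 + p - 3, by rw [F, h0, h1, h2]; ring⟩

theorem norm_ne (n : ℤ) (hn : n ≠ 0) (G0 G1 G2 : MvPolynomial (Fin 3) ℤ)
    (h : C n ^ 2 * G0 ^ 3 + C n * G1 ^ 3 * FP + G2 ^ 3 * FP ^ 2 - 3 * C n * G0 * G1 * G2 * FP = 0) :
    G0 = 0 ∧ G1 = 0 ∧ G2 = 0 := by
  obtain ⟨q, hq1, hq⟩ := Nat.exists_infinite_primes (n.natAbs + 4)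
  have hp : Prime (q : ℤ) := Nat.prime_iff_prime_int.1 hq
  have hp0 : (q : ℤ) ≠ 0 := hp.ne_zero
  have hqn : ¬ (q : ℤ) ∣ n := fun e => by
    have e1 : q ∣ n.natAbs := Int.natCast_dvd.1 e
    have e2 := Nat.le_of_dvd (Int.natAbs_pos.2 hn) e1
    omega
  have hq3 : ¬ (q : ℤ) ∣ 3 := fun e => by
    have e1 := Int.le_of_dvd (by norm_num) e
    omega
  let r : Fin 3 → ℤ := ![1, (q : ℤ) - 1, 0]
  let s : Fin 3 → Set ℤ := fun i => Set.range fun a : ℤ => r i + (q : ℤ) ^ 2 * a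
  have hs : ∀ i, (s i).Infinite := fun i =>
    Set.infinite_range_of_injective fun a b e =>
      mul_left_cancel₀ (pow_ne_zero 2 hp0) (add_left_cancel e)
  have key : ∀ P ∈ Set.pi Set.univ s, eval P G0 = 0 ∧ eval P G1 = 0 ∧ eval P G2 = 0 := by
    intro P hP
    obtain ⟨a, ha⟩ := hP 0 (Set.mem_univ _)
    obtain ⟨b, hb⟩ := hP 1 (Set.mem_univ _)
    obtain ⟨c, hc⟩ := hP 2 (Set.mem_univ _)
    obtain ⟨K, hK⟩ := norm_pt q a b c P ha.symm hb.symm hc.symm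
    have he := congrArg (eval P) h
    have h3 : eval P (3 : MvPolynomial (Fin 3) ℤ) = 3 := map_ofNat _ 3
    simp only [map_sub, map_add, map_mul, map_pow, eval_C, eval_FP, map_zero, h3] at he
    refine norm_desc q hp n (F P) _ _ _ ⟨3 + q * K, by rw [hK]; ring⟩ ?_ hqn he
    rintro ⟨L, hL⟩
    refine hq3 ⟨L - K, mul_left_cancel₀ hp0 ?_⟩
    linear_combination hL - hK
  refine ⟨funext_set s hs fun P hP => ?_, funext_set s hs fun P hP => ?_,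
    funext_set s hs fun P hP => ?_⟩
  · rw [(key P hP).1, map_zero]
  · rw [(key P hP).2.1, map_zero]
  · rw [(key P hP).2.2, map_zero]

end Pool.Agent.Lib.MP_9c5702_nt.QB
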