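import Pool.Agent.Lib.MP_9c5702_nt.QB.Defs

/-! The local inequality for removing a cube. -/

set_option autoImplicit false

namespace Pool.Agent.Lib.MP_9c5702_nt.QB

open Pool.Agent.Lib.MP_9c5702_nt.Q4

theorem phi_step (a b α δ : ℕ) (h1 : 3 * a ≤ b) (h2 : b ≤ α + 3 * δ) :
    phi a b - phi (min a (α / 3)) (min b α) ≤
      δ + √3 / 2 * ((a : ℝ) - ((min a (α / 3) : ℕ) : ℝ)) := by
  have ha0 : (0 : ℝ) ≤ a := Nat.cast_nonneg a
  have hδ0 : (0 : ℝ) ≤ δ := Nat.cast_nonneg δ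
  have h1' : 3 * (a : ℝ) ≤ b := by exact_mod_cast h1
  have h2' : (b : ℝ) ≤ α + 3 * δ := by exact_mod_cast h2
  by_cases hc : 3 * a ≤ α
  · rw [min_eq_left (show a ≤ α / 3 by omega), sub_self, mul_zero, add_zero]
    by_cases hb : b ≤ α
    · rw [min_eq_left hb, sub_self]
      exact hδ0
    · rw [min_eq_right (show α ≤ b by omega)]
      have hc' : 3 * (a : ℝ) ≤ α := by exact_mod_cast hc
      have hb' : (α : ℝ) ≤ b := by exact_mod_cast (show α ≤ b by omega)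
      have e1 : (a : ℝ) ≤ √((a : ℝ) * α) := Real.le_sqrt_of_sq_le (by nlinarith)
      have e2 : √((a : ℝ) * α) ^ 2 = a * α := Real.sq_sqrt (by positivity)
      have e3 : √((a : ℝ) * b) ≤ √((a : ℝ) * α) + (b - α) / 2 := by
        refine Real.sqrt_le_iff.2 ⟨by linarith, ?_⟩
        nlinarith [mul_le_mul_of_nonneg_right e1 (sub_nonneg.2 hb'), sq_nonneg ((b : ℝ) - α)]
      unfold phi
      linarith
  · rw [min_eq_right (show α / 3 ≤ a by omega), min_eq_right (show α ≤ b by omega)]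
    have hd : (1 : ℝ) ≤ δ := by exact_mod_cast (show 1 ≤ δ by omega)
    have k1 : 3 * ((α / 3 : ℕ) : ℝ) ≤ α := by exact_mod_cast (show 3 * (α / 3) ≤ α by omega)
    have k2 : (α : ℝ) ≤ 3 * ((α / 3 : ℕ) : ℝ) + 2 := by
      exact_mod_cast (show α ≤ 3 * (α / 3) + 2 by omega)
    have k0 : (0 : ℝ) ≤ ((α / 3 : ℕ) : ℝ) := Nat.cast_nonneg _
    set x : ℝ := ((α / 3 : ℕ) : ℝ) with hx
    have s2 : √3 ^ 2 = (3 : ℝ) := Real.sq_sqrt (by norm_num)
    have s0 : (1.732 : ℝ) ≤ √3 := Real.le_sqrt_of_sq_le (by norm_num)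
    have s1 : √3 ≤ (1.7321 : ℝ) := Real.sqrt_le_iff.2 ⟨by norm_num, by norm_num⟩
    have hb0 : (0 : ℝ) ≤ b := Nat.cast_nonneg b
    have e1 : √((a : ℝ) * b) ≤ √3 / 2 * a + √3 / 6 * b := by
      refine Real.sqrt_le_iff.2 ⟨by positivity, ?_⟩
      have : (√3 / 2 * a + √3 / 6 * b) ^ 2 = √3 ^ 2 * ((a : ℝ) / 2 + b / 6) ^ 2 := by ring
      rw [this, s2]
      nlinarith [sq_nonneg (3 * (a : ℝ) - b)]
    have e2 : √3 * x ≤ √(x * α) := by
      refine Real.le_sqrt_of_sq_le ?_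
      rw [mul_pow, s2]
      nlinarith
    have e3 : (√3 - 1) * b ≤ (√3 - 1) * (α + 3 * δ) :=
      mul_le_mul_of_nonneg_left h2' (by linarith)
    have e4 : √3 * α ≤ √3 * (3 * x + 2) := mul_le_mul_of_nonneg_left k2 (by linarith)
    have e5 : √3 * δ ≤ 1.7321 * δ := mul_le_mul_of_nonneg_right s1 hδ0
    unfold phi
    nlinarith

end Pool.Agent.Lib.MP_9c5702_nt.QB
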