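import Pool.Agent.Lib.MP_9c5702_nt.QB.Defs
import Pool.Agent.Lib.MP_9c5702_nt.Q4.PlaneN

/-! Non-special planes. -/

set_option autoImplicit false

namespace Pool.Agent.Lib.MP_9c5702_nt.QB

open Pool.Agent.Lib.MP_9c5702_nt.Q4

theorem plane_ns3 (n X q B κ Y T l : ℕ) (h : Par n B κ Y T) (hn : n = X * q ^ 3) (hq : 1 ≤ q)
    (hnl : IsCoprime (n : ℤ) (l : ℤ)) (hl : 256 * X * Y ^ 3 ≤ l ^ 6)
    (hl2 : 4000 ^ 3 * n * Y ^ 9 ≤ l ^ 27) (W : Finset V)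
    (hW : ∀ P ∈ W, P ∈ Sol n B) (hQ : Q3 (q : ℤ) W) (hC : AChart (l : ℤ) W)
    (ψ : V) (c0 : ℤ) (hpl : ∀ P ∈ W, dot ψ P = c0) (hψ : NS ψ) :
    W.card ≤ (36 * κ + 54) * T ^ 3 := by
  have n1 := h.n1
  have T1 := h.tb.one_le n1
  have aq : 1 ≤ X := Nat.pos_of_ne_zero fun h0 => by simp [h0] at hn; omega
  have Y1 : 1 ≤ Y := by have := h.Y0; omega
  have hYl : Y ≤ l ^ 3 := by
    refine (Nat.pow_le_pow_iff_left (n := 2) (by norm_num)).1 ?_
    calc Y ^ 2 ≤ Y ^ 3 := Nat.pow_le_pow_right Y1 (by norm_num)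
      _ ≤ 256 * X * Y ^ 3 := Nat.le_mul_of_pos_left _ (by omega)
      _ ≤ (l ^ 3) ^ 2 := by rw [← pow_mul]; exact hl
  have hl' : 256 * (X : ℤ) * (Y : ℤ) ^ 3 ≤ (l : ℤ) ^ 6 := by exact_mod_cast hl
  have hB : (B : ℤ) ^ 3 ≤ (X : ℤ) * (q : ℤ) ^ 3 := by exact_mod_cast hn ▸ h.B3
  have aq' : (1 : ℤ) ≤ (X : ℤ) := by exact_mod_cast aq
  have Y1' : (1 : ℤ) ≤ Y := by exact_mod_cast Y1
  have q1 : (1 : ℤ) ≤ q := by exact_mod_cast hq
  by_cases hc : c0 = 0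
  · subst hc
    obtain ⟨g, ψ', w, g0, h1, h2⟩ := exists_prim_normal ψ hψ
    have hψ' : NS ψ' := fun i j hij e => hψ i j hij (by rw [h1, h1, e])
    have hpl' : ∀ P ∈ W, dot ψ' P = 0 := by
      intro P hP
      have := hpl P hP
      apply mul_left_cancel₀ g0
      unfold dot at this ⊢
      rw [h1 0, h1 1, h1 2] at this
      linear_combination this
    have h3 := origin_cover n B h.B3 n1 ψ' w h2 hψ' W hW hpl' (36 * κ + 54) (by
      intro W' hs φ M s h3 h4 h5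
      refine nonspecial n B κ Y T l h W' (fun P hP => hW P (hs hP)) (hC.mono hs) ψ' hψ' 0
        (fun P hP => hpl' P (hs hP)) φ h3 M 0 ?_
        (hnl.of_isCoprime_of_dvd_left (Int.natCast_dvd_natCast.2 h4)) s
        (fun P hP => by rw [(h5 P hP).1, add_zero]) hYl fun P hP => ?_
      · intro h0
        have : M = 0 := by exact_mod_cast h0
        rw [this, zero_dvd_iff] at h4
        omega
      · refine le_of_pow_le_pow_left₀ (n := 9) (by norm_num) (by positivity) ?_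
        have h6 : (B : ℤ) ^ 3 ≤ n := by exact_mod_cast h.B3
        have h7 : 4000 ^ 3 * (n : ℤ) * (Y : ℤ) ^ 9 ≤ (l : ℤ) ^ 27 := by exact_mod_cast hl2
        calc (|s P| * Y) ^ 9 = (|s P| ^ 3) ^ 3 * (Y : ℤ) ^ 9 := by ring
          _ ≤ (4000 * (B : ℤ)) ^ 3 * (Y : ℤ) ^ 9 := by
            have := (h5 P hP).2
            gcongr
          _ = 4000 ^ 3 * (B : ℤ) ^ 3 * (Y : ℤ) ^ 9 := by ring
          _ ≤ 4000 ^ 3 * (n : ℤ) * (Y : ℤ) ^ 9 := by gcongr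
          _ ≤ (l : ℤ) ^ 27 := h7
          _ = ((l : ℤ) ^ 3) ^ 9 := by ring)
    have h4 : n.divisors.card ≤ T := h.tb n n1
      ((by omega : n ≤ 4 * n).trans (Nat.le_self_pow (by norm_num) _))
    calc W.card ≤ n.divisors.card ^ 2 * (36 * κ + 54) := h3
      _ ≤ T ^ 3 * (36 * κ + 54) := Nat.mul_le_mul_right _
        ((Nat.pow_le_pow_left h4 2).trans (Nat.pow_le_pow_right T1 (by norm_num)))
      _ = _ := Nat.mul_comm _ _
  · rcases W.eq_empty_or_nonempty with rfl | ⟨P0, hP0⟩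
    · simp
    obtain ⟨φ, h1, h2⟩ := short q B hq h.B1 W hQ (fun P hP => (hW P hP).1) ψ c0 hc hpl P0 hP0
    have h3 : ∀ P ∈ W, dot φ P = (q : ℤ) ^ 3 * ((dot φ P - dot φ P0) / (q : ℤ) ^ 3) + dot φ P0 := by
      intro P hP
      rw [Int.mul_ediv_cancel' (dvd_sub (h2 P hP).1 (h2 P0 hP0).1)]
      ring
    have h4 := nonspecial n B κ Y T l h W hW hC ψ hψ c0 hpl φ h1 ((q : ℤ) ^ 3) (dot φ P0)
      (by positivity) (IsCoprime.pow_left (hnl.of_isCoprime_of_dvd_left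
        ⟨(X : ℤ) * (q : ℤ) ^ 2, by rw [hn]; push_cast; ring⟩)) _ h3 hYl (by
      intro P hP
      have h4 := (h2 P hP).2
      have h5 := h3 P hP
      generalize (dot φ P - dot φ P0) / (q : ℤ) ^ 3 = s at h5 ⊢
      have h6 : s ^ 2 ≤ 216 * (X : ℤ) := by
        refine le_of_mul_le_mul_right ?_ (by positivity : 0 < (q : ℤ) ^ 6)
        calc s ^ 2 * (q : ℤ) ^ 6 = (dot φ P - dot φ P0) ^ 2 := by rw [h5]; ring
          _ ≤ 216 * (B : ℤ) ^ 3 * (q : ℤ) ^ 3 := h4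
          _ ≤ 216 * ((X : ℤ) * (q : ℤ) ^ 3) * (q : ℤ) ^ 3 := by gcongr
          _ = _ := by ring
      refine le_of_pow_le_pow_left₀ (n := 2) (by norm_num) (by positivity) ?_
      calc (|s| * Y) ^ 2 = s ^ 2 * (Y : ℤ) ^ 2 := by rw [mul_pow, sq_abs]
        _ ≤ 256 * (X : ℤ) * (Y : ℤ) ^ 3 := by
          have : s ^ 2 ≤ 256 * (X : ℤ) := by linarith
          gcongr
          norm_num
        _ ≤ ((l : ℤ) ^ 3) ^ 2 := by rw [← pow_mul]; exact hl')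
    exact h4.trans (Nat.le_mul_of_pos_right _ (Nat.pow_pos T1))

end Pool.Agent.Lib.MP_9c5702_nt.QB
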