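import Pool.Agent.Lib.MP_9c5702_nt.QB.PlaneS
import Pool.Agent.Lib.MP_9c5702_nt.QB.PlaneN
import Pool.Agent.Lib.MP_9c5702_nt.QB.ChartK
import Pool.Agent.Lib.MP_9c5702_nt.Q4.Copl

/-! Points of a class modulo `3 q` and modulo an auxiliary prime. -/

set_option autoImplicit false

namespace Pool.Agent.Lib.MP_9c5702_nt.QB

open Pool.Agent.Lib.MP_9c5702_nt.Q4

theorem plane3 (n X q B κ Y T l : ℕ) (h : Par n B κ Y T) (hn : n = X * q ^ 3) (hq : 1 ≤ q)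
    (hlp : l.Prime) (hnl : ¬ l ∣ n) (hl : 256 * X * Y ^ 3 ≤ l ^ 6)
    (hl2 : 4000 ^ 3 * n * Y ^ 9 ≤ l ^ 27) (W : Finset V) (hW : ∀ P ∈ W, P ∈ Sol n B)
    (hp : Pw (Crs (3 * (q : ℤ))) W) (h3 : Pw (Cong 3) W) (hC : AChart (l : ℤ) W) :
    W.card ≤ (36 * κ + 54) * T ^ 3 := by
  rcases W.eq_empty_or_nonempty with rfl | hne
  · simp
  have hcop : Nat.Coprime n l := ((Nat.Prime.coprime_iff_not_dvd hlp).2 hnl).symm
  have hnl' : IsCoprime (n : ℤ) (l : ℤ) := Nat.isCoprime_iff_coprime.2 hcop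
  have hqn : q ∣ n := by rw [hn]; exact Dvd.intro_left (X * q ^ 2) (by ring)
  have hQ : Q3 (q : ℤ) W := q3K _ (n : ℤ) ⟨X, by rw [hn]; push_cast; ring⟩ _
    (chartK n q B hqn W hW hp h3)
  have hql : IsCoprime (q : ℤ) (l : ℤ) :=
    Nat.isCoprime_iff_coprime.2 (Nat.Coprime.coprime_dvd_left hqn hcop)
  have hY : 2 ≤ Y := by
    have h1 := h.Y0
    have h2 : 1 ≤ (6 * κ + 3) ^ 4 := Nat.one_le_pow _ _ (by omega)
    omega
  have hbig : 256 * B ^ 3 < l ^ 6 * q ^ 3 := by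
    have h1 : 256 * X * Y ^ 3 * q ^ 3 ≤ l ^ 6 * q ^ 3 := Nat.mul_le_mul_right _ hl
    have h2 : 256 * X * Y ^ 3 * q ^ 3 = 256 * n * Y ^ 3 := by rw [hn]; ring
    have h4 : 2 ^ 3 ≤ Y ^ 3 := Nat.pow_le_pow_left hY 3
    have h5 : 256 * n * 2 ^ 3 ≤ 256 * n * Y ^ 3 := Nat.mul_le_mul_left _ h4
    have h6 := h.B3
    have h7 := h.n1
    omega
  obtain ⟨ψ, c0, hψ0, hψ, hc0, hpl⟩ :=
    coplanar q l B h.B1 hql hbig W hne (fun P hP => (hW P hP).1) hQ hC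
  by_cases hs : NS ψ
  · exact plane_ns3 n X q B κ Y T l h hn hq hnl' hl hl2 W hW hQ hC ψ c0 hpl hs
  · exact plane_special3 n X q B κ Y T l h hn hq hql hl W hW hp hC ψ c0 hψ0 hψ hc0 hpl hs

end Pool.Agent.Lib.MP_9c5702_nt.QB
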