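import Pool.Agent.Lib.MP_9c5702_nt.QB.Weier
import Pool.Agent.Lib.MP_9c5702_nt.Q4.SpCon

/-! Special planes. -/

set_option autoImplicit false

namespace Pool.Agent.Lib.MP_9c5702_nt.QB

open Pool.Agent.Lib.MP_9c5702_nt.Q4

theorem plane_special3 (n X q B κ Y T l : ℕ) (h : Par n B κ Y T) (hn : n = X * q ^ 3) (hq : 1 ≤ q)
    (hql : IsCoprime (q : ℤ) (l : ℤ)) (hl : 256 * X * Y ^ 3 ≤ l ^ 6) (W : Finset V)
    (hW : ∀ P ∈ W, P ∈ Sol n B) (hp : Pw (Crs (3 * (q : ℤ))) W) (hC : AChart (l : ℤ) W)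
    (ψ : V) (c0 : ℤ) (hψ0 : ψ ≠ 0) (hψ : ∀ i, |ψ i| ≤ (4 * (B : ℤ)) ^ 4)
    (hc0 : |c0| ≤ (4 * (B : ℤ)) ^ 4) (hpl : ∀ P ∈ W, dot ψ P = c0) (hsp : ¬ NS ψ) :
    W.card ≤ (36 * κ + 54) * T ^ 3 := by
  have hT1 : 1 ≤ T := h.tb.one_le h.n1
  have hT3 : T ≤ T ^ 3 := Nat.le_self_pow (by norm_num) T
  have hn1 := h.n1
  unfold NS at hsp
  push Not at hsp
  obtain ⟨i, j, hij, he⟩ := hsp
  obtain ⟨k, hik, hjk⟩ := third i j hij
  have hpl' : ∀ P ∈ W, ψ i * (P i + P j) + ψ k * P k = c0 := by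
    intro P hP
    rw [← hpl P hP, dot_perm ψ P hij hik hjk, ← he]
    ring
  have hBn : (4 * (B : ℤ)) ^ 4 ≤ (4 * (n : ℤ)) ^ 4 := by
    have : (B : ℤ) ≤ n := by exact_mod_cast h.Bn
    gcongr
  by_cases hβ : ψ k = 0
  · have hα : ψ i ≠ 0 := by
      intro h0
      exact hψ0 (vec_ext_perm hij hik hjk h0 (by rw [← he]; exact h0) hβ)
    rcases W.eq_empty_or_nonempty with rfl | ⟨P0, hP0⟩
    · simp
    have hs : ∀ P ∈ W, P i + P j = P0 i + P0 j := by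
      intro P hP
      have h1 := hpl' P hP
      have h2 := hpl' P0 hP0
      rw [hβ] at h1 h2
      exact mul_left_cancel₀ hα (by linarith)
    have hl' : X * Y ^ 3 ≤ l ^ 6 := le_trans (Nat.mul_le_mul_right _ (by omega)) hl
    have := weier3 n X q B κ Y T l h hn hq hql hl' W hW hp hC i j k hij hik hjk _ hs
    nlinarith
  by_cases hR : ψ k ^ 3 * n = c0 ^ 3
  · have := sp_conic n B T h.B3 hn1 h.tb W hW i j k hij hik hjk (ψ i) (ψ k) c0 hβ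
      ((hψ i).trans hBn) ((hψ k).trans hBn) hpl' hR
    nlinarith
  · have hR' : ψ k ^ 3 * n - c0 ^ 3 ≠ 0 := sub_ne_zero.2 hR
    have h1 := sp_div n B W hW i j k hij hik hjk (ψ i) (ψ k) c0 hβ hpl' hR'
    have h2 : (ψ k ^ 3 * n - c0 ^ 3).natAbs ≤ (4 * n) ^ 60 := by
      have hE : (1 : ℤ) ≤ n := by exact_mod_cast hn1
      have a1 : |ψ k| ^ 3 ≤ ((4 * (n : ℤ)) ^ 4) ^ 3 :=
        pow_le_pow_left₀ (abs_nonneg _) ((hψ k).trans hBn) 3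
      have a2 : |c0| ^ 3 ≤ ((4 * (n : ℤ)) ^ 4) ^ 3 :=
        pow_le_pow_left₀ (abs_nonneg _) (hc0.trans hBn) 3
      have a3 : |ψ k ^ 3 * n - c0 ^ 3| ≤ |ψ k| ^ 3 * n + |c0| ^ 3 := by
        refine (abs_sub _ _).trans ?_
        rw [abs_mul, abs_pow, abs_pow, Nat.abs_cast]
      have a4 : |ψ k| ^ 3 * n ≤ ((4 * (n : ℤ)) ^ 4) ^ 3 * n :=
        mul_le_mul_of_nonneg_right a1 (by linarith)
      have a5 : (4 * (n : ℤ)) ^ 13 ≤ (4 * (n : ℤ)) ^ 60 :=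
        pow_le_pow_right₀ (by linarith) (by norm_num)
      have a6 : ((4 * (n : ℤ)) ^ 4) ^ 3 * n + ((4 * (n : ℤ)) ^ 4) ^ 3 ≤ (4 * (n : ℤ)) ^ 13 := by
        have : (4 * (n : ℤ)) ^ 13 = ((4 * (n : ℤ)) ^ 4) ^ 3 * (4 * n) := by ring
        rw [this]
        have hp : (0 : ℤ) ≤ ((4 * (n : ℤ)) ^ 4) ^ 3 := by positivity
        nlinarith
      have a7 : |ψ k ^ 3 * n - c0 ^ 3| ≤ (4 * (n : ℤ)) ^ 60 := by linarith
      rw [Int.abs_eq_natAbs] at a7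
      exact_mod_cast a7
    have h3 := h.tb _ (Int.natAbs_pos.2 hR') h2
    nlinarith

end Pool.Agent.Lib.MP_9c5702_nt.QB
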